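import Pool.Agent.R329.LitRot

set_option autoImplicit false

/-! Operations on step functions. -/

namespace Pool.Agent.T6.H43.LS

open Pool.Agent.R329.LitCodes (Step)

lemma Step.comp {A B : Type} {D : Finset ℝ} {F : ℝ → A} (S : Step D F) (g : A → B) :
    Step D (fun y => g (F y)) :=
  ⟨fun y => by rw [S.per], fun u v huv h => by rw [S.const u v huv h]⟩

lemma Step.mono {A : Type} {D D' : Finset ℝ} {F : ℝ → A} (S : Step D F) (h : D ⊆ D') :
    Step D' F :=
  ⟨S.per, fun u v huv hd => S.const u v huv fun d hdD m => hd d (h hdD) m⟩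

lemma Step.shift {A : Type} {D : Finset ℝ} {F : ℝ → A} (S : Step D F) (θ : ℝ) :
    Step (D.image (fun d => d - θ)) (fun y => F (y + θ)) := by
  classical
  refine ⟨fun y => by rw [add_right_comm, S.per], fun u v huv h => ?_⟩
  refine S.const (u + θ) (v + θ) (by linarith) ?_
  rintro d hd m ⟨h1, h2⟩
  refine h (d - θ) (Finset.mem_image_of_mem _ hd) m ⟨by linarith, by linarith⟩

lemma Step.map2 {A B C : Type} {D D' : Finset ℝ} {F : ℝ → A} {G : ℝ → B} (S : Step D F)
    (S' : Step D' G) (g : A → B → C) : Step (D ∪ D') (fun y => g (F y) (G y)) := by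
  classical
  refine ⟨fun y => by rw [S.per, S'.per], fun u v huv h => ?_⟩
  rw [S.const u v huv fun d hd m => h d (Finset.mem_union_left _ hd) m,
    S'.const u v huv fun d hd m => h d (Finset.mem_union_right _ hd) m]

open Classical in
lemma Step.finite_range {A : Type} {D : Finset ℝ} {F : ℝ → A} (S : Step D F) :
    (Set.range F).Finite := by
  set P : Finset ℝ := D.image Int.fract with hP
  have hI : Set.range F ⊆ ⋃ σ ∈ (P.powerset ×ˢ P.powerset),
      F '' {y | 0 ≤ y ∧ y < 1 ∧ (P.filter (fun p => p < y), P.filter (fun p => p ≤ y)) = σ} := by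
    rintro _ ⟨y, rfl⟩
    have h1 : F y = F (Int.fract y) := by
      have h2 := S.per_int (Int.fract y) ⌊y⌋
      rw [Int.fract_add_floor] at h2
      exact h2
    rw [h1]
    refine Set.mem_biUnion (x := (P.filter (fun p => p < Int.fract y),
      P.filter (fun p => p ≤ Int.fract y))) ?_ ?_
    · rw [Finset.mem_coe, Finset.mem_product, Finset.mem_powerset, Finset.mem_powerset]
      exact ⟨Finset.filter_subset _ _, Finset.filter_subset _ _⟩
    · exact ⟨Int.fract y, ⟨Int.fract_nonneg y, Int.fract_lt_one y, rfl⟩, rfl⟩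
  refine Set.Finite.subset (Set.Finite.biUnion (Finset.finite_toSet _) fun σ _ => ?_) hI
  apply Set.Subsingleton.finite
  have key : ∀ u v : ℝ, 0 ≤ u → v < 1 → u ≤ v →
      (P.filter (fun p => p < u), P.filter (fun p => p ≤ u))
        = (P.filter (fun p => p < v), P.filter (fun p => p ≤ v)) → F u = F v := by
    intro u v hu hv huv hσ
    rcases eq_or_lt_of_le huv with rfl | hlt
    · rfl
    refine S.const u v huv ?_
    rintro d hd m ⟨h1, h2⟩
    have h3 : Int.fract d = d + m := by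
      rw [← Int.fract_add_intCast d m]
      exact Int.fract_eq_self.2 ⟨by linarith, by linarith⟩
    have hp : d + m ∈ P := by
      rw [hP, Finset.mem_image]
      exact ⟨d, hd, h3⟩
    have e1 := congrArg Prod.fst hσ
    have e2 := congrArg Prod.snd hσ
    simp only at e1 e2
    have h4 : d + m ∈ P.filter (fun p => p ≤ v) := Finset.mem_filter.2 ⟨hp, h2⟩
    rw [← e2, Finset.mem_filter] at h4
    have h5 : d + m ∈ P.filter (fun p => p < v) := Finset.mem_filter.2 ⟨hp, by linarith [h4.2]⟩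
    rw [← e1, Finset.mem_filter] at h5
    linarith [h5.2]
  rintro _ ⟨u, ⟨hu0, hu1, huσ⟩, rfl⟩ _ ⟨v, ⟨hv0, hv1, hvσ⟩, rfl⟩
  rcases le_total u v with h | h
  · exact key u v hu0 hv1 h (huσ.trans hvσ.symm)
  · exact (key v u hv0 hu1 h (hvσ.trans huσ.symm)).symm

lemma Step.bounded {r : ℕ} {D : Fin r → Finset ℝ} {F : Fin r → ℝ → ℤ} (S : ∀ j, Step (D j) (F j)) :
    ∃ B : ℝ, 0 ≤ B ∧ ∀ j y, |(F j y : ℝ)| ≤ B := by
  have h1 : (⋃ j, Set.range (F j)).Finite := Set.finite_iUnion fun j => Step.finite_range (S j)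
  refine ⟨∑ x ∈ h1.toFinset, |(x : ℝ)|, Finset.sum_nonneg fun _ _ => abs_nonneg _, fun j y => ?_⟩
  refine Finset.single_le_sum (f := fun x : ℤ => |(x : ℝ)|) (fun _ _ => abs_nonneg _) ?_
  rw [Set.Finite.mem_toFinset, Set.mem_iUnion]
  exact ⟨j, y, rfl⟩

lemma Step.boundedR {r : ℕ} {D : Fin r → Finset ℝ} {F : Fin r → ℝ → ℝ} (S : ∀ j, Step (D j) (F j)) :
    ∃ B : ℝ, 0 ≤ B ∧ ∀ j y, |F j y| ≤ B := by
  have h1 : (⋃ j, Set.range (F j)).Finite := Set.finite_iUnion fun j => Step.finite_range (S j)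
  refine ⟨∑ x ∈ h1.toFinset, |x|, Finset.sum_nonneg fun _ _ => abs_nonneg _, fun j y => ?_⟩
  refine Finset.single_le_sum (f := fun x : ℝ => |x|) (fun _ _ => abs_nonneg _) ?_
  rw [Set.Finite.mem_toFinset, Set.mem_iUnion]
  exact ⟨j, y, rfl⟩

/-- common denominators -/
lemma common_den (ε : ℝ) (T : Finset ℝ) (hT : ∀ x ∈ T, ∃ a b : ℚ, x = a + b * ε) :
    ∃ m : ℕ, 0 < m ∧ ∀ x ∈ T, ∃ a b : ℤ, (m : ℝ) * x = a + b * ε := by
  classical
  induction T using Finset.induction_on with
  | empty => exact ⟨1, one_pos, by simp⟩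
  | insert x T hx ih =>
    obtain ⟨m, hm, h⟩ := ih fun z hz => hT z (Finset.mem_insert_of_mem hz)
    obtain ⟨a, b, hab⟩ := hT x (Finset.mem_insert_self x T)
    refine ⟨a.den * b.den * m, Nat.mul_pos (Nat.mul_pos a.den_pos b.den_pos) hm, ?_⟩
    intro z hz
    rw [Finset.mem_insert] at hz
    rcases hz with rfl | hz
    · have ha : (a.den : ℝ) * (a : ℝ) = a.num := by
        have := Rat.mul_den_eq_num a
        have h2 : ((a * a.den : ℚ) : ℝ) = ((a.num : ℚ) : ℝ) := by rw [this]
        push_cast at h2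
        linarith
      have hb' : (b.den : ℝ) * (b : ℝ) = b.num := by
        have := Rat.mul_den_eq_num b
        have h2 : ((b * b.den : ℚ) : ℝ) = ((b.num : ℚ) : ℝ) := by rw [this]
        push_cast at h2
        linarith
      refine ⟨a.num * b.den * m, b.num * a.den * m, ?_⟩
      rw [hab]
      push_cast
      linear_combination (b.den : ℝ) * m * ha + (a.den : ℝ) * m * ε * hb'
    · obtain ⟨c, d, hcd⟩ := h z hz
      refine ⟨a.den * b.den * c, a.den * b.den * d, ?_⟩
      push_cast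
      linear_combination (a.den : ℝ) * b.den * hcd

end Pool.Agent.T6.H43.LS
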