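import Mathlib
import Pool.Agent.H389R2.LC.Block

set_option autoImplicit false

/-!
Littlewood's conjecture for a quadratic `α` and for `β = ∑ e_k ε^{-k}`, when on long windows the digits
`e_k` are sums of `r` periodic sequences with periods `ℓ_1, …, ℓ_r`, and the window is longer than
`3 / 2 (ℓ_1 + … + ℓ_r)`.
-/

namespace Pool.Agent.T6.H43.LS

open Pool.H389R2.LC

section base
variable {t : ℤ} {ε : ℝ} (hb : Base t ε)
include hb

lemma gg_sum {r : ℕ} (D : Fin r → ℤ → ℤ) (B : ℝ) (hB : ∀ i k, |(D i k : ℝ)| ≤ B) (j : ℤ) :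
    gg ε (fun k => ∑ i, D i k) j = ∑ i, gg ε (D i) j := by
  have h1 : FF ε (fun k => ∑ i, D i k) j = ∑ i, FF ε (D i) j := by
    unfold FF
    rw [← Summable.tsum_finsetSum (fun i _ => summable_geo hb (fun m : ℕ => D i (j + m)) B
      (fun k => hB i _))]
    apply tsum_congr
    intro m
    push_cast
    rw [Finset.sum_mul]
  have h2 : PP ε (fun k => ∑ i, D i k) j = ∑ i, PP ε (D i) j := by
    unfold PP
    rw [← Summable.tsum_finsetSum (fun i _ => summable_geo' hb (fun m : ℕ => D i (j - 1 - m)) B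
      (fun k => hB i _))]
    apply tsum_congr
    intro m
    push_cast
    rw [Finset.sum_mul]
  unfold gg
  rw [h1, h2, ← Finset.sum_add_distrib, Finset.sum_div]

/-- sums of periodic sequences give torsion points -/
lemma torsion_sum {r : ℕ} (D : Fin r → ℤ → ℤ) (B : ℝ) (hB : ∀ i k, |(D i k : ℝ)| ≤ B)
    (ℓ : Fin r → ℕ) (hℓ : ∀ i, 0 < ℓ i) (h : ∀ i k, D i (k + ℓ i) = D i k) :
    ∃ M : ℕ, 0 < M ∧ (M : ℝ) ^ 2 ≤ (16 * ε ^ 4) ^ r * ε ^ (∑ i, ℓ i) ∧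
      ∀ j, ∃ z : ℤ, (M : ℝ) * gg ε (fun k => ∑ i, D i k) j = z := by
  have hT : ∀ i, ∃ M : ℕ, 0 < M ∧ (M : ℝ) ^ 2 ≤ 16 * ε ^ 4 * ε ^ (ℓ i) ∧
      ∀ j, ∃ z : ℤ, (M : ℝ) * gg ε (D i) j = z := by
    intro i
    obtain ⟨M, hM0, hM2, hMg⟩ := torsion_int hb (D i) B (hB i) (ℓ i) (hℓ i) 1 (Or.inl rfl)
      (by intro k; rw [one_mul]; exact h i k)
    refine ⟨M.toNat, by omega, ?_, ?_⟩
    · have : ((M.toNat : ℕ) : ℝ) = (M : ℝ) := by
        have : ((M.toNat : ℕ) : ℤ) = M := by omega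
        exact_mod_cast this
      rw [this]; exact hM2
    · intro j
      have : ((M.toNat : ℕ) : ℝ) = (M : ℝ) := by
        have : ((M.toNat : ℕ) : ℤ) = M := by omega
        exact_mod_cast this
      rw [this]; exact hMg j
  choose M hM0 hM2 hMg using hT
  refine ⟨∏ i, M i, Finset.prod_pos fun i _ => hM0 i, ?_, ?_⟩
  · push_cast
    rw [← Finset.prod_pow]
    calc ∏ i, (M i : ℝ) ^ 2 ≤ ∏ i, (16 * ε ^ 4 * ε ^ (ℓ i)) :=
          Finset.prod_le_prod (fun i _ => by positivity) (fun i _ => hM2 i)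
      _ = (16 * ε ^ 4) ^ r * ε ^ (∑ i, ℓ i) := by
          rw [Finset.prod_mul_distrib, Finset.prod_const, Finset.card_univ, Fintype.card_fin,
            Finset.prod_pow_eq_pow_sum]
  · intro j
    rw [gg_sum hb D B hB j, Finset.mul_sum]
    have hterm : ∀ i, ∃ z : ℤ, ((∏ i, M i : ℕ) : ℝ) * gg ε (D i) j = z := by
      intro i
      obtain ⟨z, hz⟩ := hMg i j
      refine ⟨(∏ k ∈ Finset.univ.erase i, (M k : ℤ)) * z, ?_⟩
      rw [← Finset.mul_prod_erase Finset.univ M (Finset.mem_univ i)]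
      push_cast
      rw [← hz]
      ring
    choose z hz using hterm
    refine ⟨∑ i, z i, ?_⟩
    rw [Int.cast_sum]
    exact Finset.sum_congr rfl fun i _ => hz i

/-- **Windows on which the digits are sums of periodic sequences.** -/
theorem sum_windows (α β : ℝ) (A0 B0 : ℤ) (c : ℕ) (hc : 0 < c) (hα : (c : ℝ) * α = A0 + B0 * ε)
    (r : ℕ) (d : Fin r → ℕ → ℤ) (B : ℝ) (hd : ∀ i k, |(d i k : ℝ)| ≤ B)
    (e : ℕ → ℤ) (he : ∀ k, |(e k : ℝ)| ≤ B)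
    (hβ : β = ∑' k : ℕ, (e k : ℝ) * ε⁻¹ ^ k)
    (h : ∀ K : ℕ, ∃ (s R : ℕ) (ℓ : Fin r → ℕ), (∀ i, 0 < ℓ i) ∧ 3 * (∑ i, ℓ i) + K ≤ 2 * R ∧
      (∀ k, s ≤ k → k < s + R → e k = ∑ i, d i k) ∧
      ∀ i k, s ≤ k → k + ℓ i < s + R → d i (k + ℓ i) = d i k) :
    ∀ η : ℝ, 0 < η → ∀ N : ℕ, ∃ q : ℕ, N ≤ q ∧ 0 < q ∧ L α β q < η := by
  apply liminf_of_inf
  intro η hη
  have hε := hb.pos
  have hr0 := hb.rpos
  have hr1 := hb.rlt
  have hm1 := hb.mul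
  have h2ε := hb.two_lt
  have hB0 : 0 ≤ B := le_trans (abs_nonneg _) (he 0)
  have hcr : (0 : ℝ) < c := by exact_mod_cast hc
  have h1r : 0 < 1 - ε⁻¹ := by linarith
  set B' : ℝ := (r + 1) * B with hB'
  have hBB' : B ≤ B' := by
    rw [hB']; nlinarith [Nat.cast_nonneg (α := ℝ) r]
  have hB'0 : 0 ≤ B' := hB0.trans hBB'
  set C1 : ℝ := c ^ 2 * |(B0 : ℝ)| * ε * 8 * (4 * B' * (1 - ε⁻¹)⁻¹ + |β|) with hC1
  have hC1nn : 0 ≤ C1 := by positivity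
  set C2 : ℝ := (16 * ε ^ 4) ^ r with hC2
  have hC2pos : 0 < C2 := by positivity
  obtain ⟨K1, hK1⟩ := exists_pow_small hr0 hr1 (C1 ^ 4 * C2 ^ 3 * ε ^ 6) (η ^ 4) (by positivity)
  obtain ⟨s, R, ℓ, hℓ, hR, hes, hper⟩ := h (K1 + 8 * r + 10)
  have hex : ∀ i, ∃ D : ℤ → ℤ, (∀ k, |(D k : ℝ)| ≤ B) ∧ (∀ k, D (k + ℓ i) = D k) ∧
      ∀ k : ℕ, s ≤ k → k < s + R → D k = d i k := by
    intro i
    obtain ⟨D, h1, h2, h3⟩ := per_ext (d i) B (hd i) s (ℓ i) R (hℓ i) 1 (Or.inl rfl)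
      (by intro k hk1 hk2; rw [one_mul]; exact hper i k hk1 hk2)
    exact ⟨D, h1, by intro k; rw [h2, one_mul], h3⟩
  choose D hDB hDper hDd using hex
  obtain ⟨m, hm0, hM2, hMg⟩ := torsion_sum hb D B hDB ℓ hℓ hDper
  set G : ℤ → ℤ := fun k => ∑ i, D i k with hG
  set Lℓ : ℕ := ∑ i, ℓ i with hLℓ
  set p : ℕ := s + R / 2 with hp
  set ρ : ℕ := R / 2 - 1 with hρ
  obtain ⟨P, hP⟩ := hMg p
  obtain ⟨Q, hQ⟩ := hMg (p + 1)
  obtain ⟨a, b, hab, ha, hb', hdvd⟩ := pigeon m hm0 P Q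
  obtain ⟨z, hz⟩ := hdvd
  set A : ℕ := Nat.sqrt m with hA
  have hMr : (0 : ℝ) < m := by exact_mod_cast hm0
  have hint : (a : ℝ) * gg ε G p + b * gg ε G (p + 1) = z := by
    have h1 : (m : ℝ) * ((a : ℝ) * gg ε G p + b * gg ε G (p + 1)) = m * z := by
      calc (m : ℝ) * ((a : ℝ) * gg ε G p + b * gg ε G (p + 1))
          = a * (m * gg ε G p) + b * (m * gg ε G (p + 1)) := by ring
        _ = a * P + b * Q := by rw [hP, hQ]
        _ = ((a * P + b * Q : ℤ) : ℝ) := by push_cast; ring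
        _ = (((m : ℤ) * z : ℤ) : ℝ) := by rw [hz]
        _ = m * z := by push_cast; ring
    exact mul_left_cancel₀ hMr.ne' h1
  have hA2 : (A : ℝ) ^ 2 ≤ m := by
    exact_mod_cast Nat.sqrt_le' m
  have hA4 : (A : ℝ) ^ 4 ≤ C2 * ε ^ Lℓ := by
    calc (A : ℝ) ^ 4 = ((A : ℝ) ^ 2) ^ 2 := by ring
      _ ≤ (m : ℝ) ^ 2 := pow_le_pow_left₀ (by positivity) hA2 2
      _ ≤ _ := hM2
  have haA : |(a : ℝ)| ≤ A := by
    have : ((|a| : ℤ) : ℝ) ≤ ((A : ℤ) : ℝ) := by exact_mod_cast ha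
    simpa using this
  have hbA : |(b : ℝ)| ≤ A := by
    have : ((|b| : ℤ) : ℝ) ≤ ((A : ℤ) : ℝ) := by exact_mod_cast hb'
    simpa using this
  have hC2le : C2 ≤ ε ^ (8 * r) := by
    have h4 : (16 : ℝ) ≤ ε ^ 4 := by
      have : (2 : ℝ) ^ 4 < ε ^ 4 := pow_lt_pow_left₀ h2ε (by norm_num) (by norm_num)
      linarith
    have h5 : 16 * ε ^ 4 ≤ ε ^ 8 := by
      have h6 : 0 < ε ^ 4 := by positivity
      calc 16 * ε ^ 4 ≤ ε ^ 4 * ε ^ 4 := mul_le_mul_of_nonneg_right h4 h6.le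
        _ = ε ^ 8 := by ring
    calc C2 ≤ (ε ^ 8) ^ r := pow_le_pow_left₀ (by positivity) h5 r
      _ = ε ^ (8 * r) := by rw [← pow_mul]
  have hne : a * U t p + b * U t (p + 1) ≠ 0 := by
    intro h0
    have hdiv : U t (p + 1) ∣ a * U t p := ⟨-b, by linarith⟩
    have hdiv2 : U t (p + 1) ∣ a := (U_coprime t p).symm.dvd_of_dvd_mul_right hdiv
    have hUp : ε ^ p ≤ (U t (p + 1) : ℝ) := hb.U_lower p
    have hεp : 0 < ε ^ p := pow_pos hε p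
    have hUpos : (0 : ℤ) < U t (p + 1) := by
      have : (0 : ℝ) < U t (p + 1) := by linarith
      exact_mod_cast this
    by_cases ha0 : a = 0
    · rw [ha0] at h0
      have : b = 0 := by
        rcases mul_eq_zero.mp (by linarith : b * U t (p + 1) = 0) with h | h
        · exact h
        · omega
      rcases hab with h | h
      · exact h ha0
      · exact h this
    · have h1 : U t (p + 1) ≤ |a| := Int.le_of_dvd (abs_pos.mpr ha0) ((dvd_abs _ _).mpr hdiv2)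
      have h2 : (U t (p + 1) : ℝ) ≤ A := by
        have : (U t (p + 1) : ℝ) ≤ ((|a| : ℤ) : ℝ) := by exact_mod_cast h1
        have h3 : ((|a| : ℤ) : ℝ) ≤ A := by push_cast; exact haA
        linarith
      have h3 : (ε ^ p) ^ 4 ≤ C2 * ε ^ Lℓ := by
        calc (ε ^ p) ^ 4 ≤ (A : ℝ) ^ 4 := pow_le_pow_left₀ hεp.le (by linarith) 4
          _ ≤ _ := hA4
      have h5 : C2 * ε ^ Lℓ < ε ^ (8 * r + 1 + Lℓ) := by
        calc C2 * ε ^ Lℓ ≤ ε ^ (8 * r) * ε ^ Lℓ :=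
              mul_le_mul_of_nonneg_right hC2le (by positivity)
          _ = ε ^ (8 * r + Lℓ) := by rw [pow_add]
          _ < ε ^ (8 * r + 1 + Lℓ) := pow_lt_pow_right₀ hb.h1 (by omega)
      have h7 : ε ^ (8 * r + 1 + Lℓ) ≤ (ε ^ p) ^ 4 := by
        rw [← pow_mul]
        exact pow_le_pow_right₀ hb.h1.le (by omega)
      linarith
  -- closeness
  set E : ℝ := 4 * B' * (1 - ε⁻¹)⁻¹ * ε⁻¹ ^ ρ with hE
  have hE0 : 0 ≤ E := by positivity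
  have hloc : ∀ k : ℤ, (s : ℤ) ≤ k → k < s + R → ext e k = G k := by
    intro k h1 h2
    obtain ⟨n, rfl⟩ : ∃ n : ℕ, (n : ℤ) = k := ⟨k.toNat, by omega⟩
    rw [ext_nat, hes n (by omega) (by omega), hG]
    exact Finset.sum_congr rfl fun i _ => (hDd i n (by omega) (by omega)).symm
  have hGB : ∀ k, |(G k : ℝ)| ≤ B' := by
    intro k
    rw [hG]
    push_cast
    calc |∑ i, (D i k : ℝ)| ≤ ∑ i, |(D i k : ℝ)| := Finset.abs_sum_le_sum_abs _ _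
      _ ≤ ∑ _i : Fin r, B := Finset.sum_le_sum fun i _ => hDB i k
      _ = r * B := by rw [Finset.sum_const, Finset.card_univ, Fintype.card_fin, nsmul_eq_mul]
      _ ≤ B' := by rw [hB']; linarith
  have heB : ∀ k, |(ext e k : ℝ)| ≤ B' := fun k => (ext_bdd e B he k).trans hBB'
  have hc1 : |gg ε (ext e) p - gg ε G p| ≤ E := by
    apply gg_close hb (ext e) G B' heB hGB
    intro k h1 h2
    exact hloc k (by omega) (by omega)
  have hc2 : |gg ε (ext e) (p + 1) - gg ε G (p + 1)| ≤ E := by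
    apply gg_close hb (ext e) G B' heB hGB
    intro k h1 h2
    exact hloc k (by omega) (by omega)
  have hκ : |(a : ℝ) * gg ε (ext e) p + b * gg ε (ext e) (p + 1) - z| ≤ (2 * A) * E := by
    have e1 : (a : ℝ) * gg ε (ext e) p + b * gg ε (ext e) (p + 1) - z
        = a * (gg ε (ext e) p - gg ε G p) + b * (gg ε (ext e) (p + 1) - gg ε G (p + 1)) := by
      rw [← hint]; ring
    rw [e1]
    calc |(a : ℝ) * (gg ε (ext e) p - gg ε G p) + b * (gg ε (ext e) (p + 1) - gg ε G (p + 1))|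
        ≤ |(a : ℝ)| * |gg ε (ext e) p - gg ε G p| + |(b : ℝ)| * |gg ε (ext e) (p + 1) - gg ε G (p + 1)| := by
          rw [← abs_mul, ← abs_mul]; exact abs_add_le _ _
      _ ≤ A * E + A * E := by
          apply add_le_add
          · exact mul_le_mul haA hc1 (abs_nonneg _) (by positivity)
          · exact mul_le_mul hbA hc2 (abs_nonneg _) (by positivity)
      _ = (2 * A) * E := by ring
  obtain ⟨q, hq0, hqs, hqL⟩ := key hb α β A0 B0 c hc hα e B he hβ p a b hne (2 * A)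
    (by linarith) _ z hκ
  refine ⟨q, hq0, ?_⟩
  have hrp : ε⁻¹ ^ p ≤ ε⁻¹ ^ ρ := pow_le_pow_of_le_one hr0.le hr1.le (by omega)
  have hL1 : L α β q ≤ C1 * (A : ℝ) ^ 3 * ε⁻¹ ^ ρ := by
    calc L α β q ≤ c ^ 2 * |(B0 : ℝ)| * ε * (2 * (A : ℝ)) ^ 2 * ((2 * A) * E + (2 * A) * ε⁻¹ ^ p * |β|) := hqL
      _ ≤ c ^ 2 * |(B0 : ℝ)| * ε * (2 * (A : ℝ)) ^ 2 * ((2 * A) * E + (2 * A) * ε⁻¹ ^ ρ * |β|) := by
          apply mul_le_mul_of_nonneg_left _ (by positivity)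
          have h1 : (2 * (A : ℝ)) * ε⁻¹ ^ p * |β| ≤ (2 * A) * ε⁻¹ ^ ρ * |β| := by
            apply mul_le_mul_of_nonneg_right _ (abs_nonneg _)
            exact mul_le_mul_of_nonneg_left hrp (by positivity)
          linarith
      _ = C1 * (A : ℝ) ^ 3 * ε⁻¹ ^ ρ := by rw [hE, hC1]; ring
  have hL0 := L_nonneg α β q
  have hr4 : ε ^ (3 * Lℓ) * (ε⁻¹ ^ ρ) ^ 4 ≤ ε ^ 6 * ε⁻¹ ^ K1 := by
    have h1 : ε⁻¹ ^ (4 * ρ + 6) ≤ ε⁻¹ ^ (3 * Lℓ + K1) :=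
      pow_le_pow_of_le_one hr0.le hr1.le (by omega)
    have h2 : ε ^ 6 * ε⁻¹ ^ (4 * ρ + 6) = (ε⁻¹ ^ ρ) ^ 4 := by
      calc ε ^ 6 * ε⁻¹ ^ (4 * ρ + 6) = (ε * ε⁻¹) ^ 6 * (ε⁻¹ ^ ρ) ^ 4 := by ring
        _ = _ := by rw [hm1, one_pow, one_mul]
    rw [← h2]
    calc ε ^ (3 * Lℓ) * (ε ^ 6 * ε⁻¹ ^ (4 * ρ + 6))
        ≤ ε ^ (3 * Lℓ) * (ε ^ 6 * ε⁻¹ ^ (3 * Lℓ + K1)) :=
          mul_le_mul_of_nonneg_left (mul_le_mul_of_nonneg_left h1 (by positivity)) (by positivity)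
      _ = (ε * ε⁻¹) ^ (3 * Lℓ) * (ε ^ 6 * ε⁻¹ ^ K1) := by rw [mul_pow, pow_add]; ring
      _ = _ := by rw [hm1, one_pow, one_mul]
  have hfin : (L α β q) ^ 4 < η ^ 4 := by
    calc (L α β q) ^ 4 ≤ (C1 * (A : ℝ) ^ 3 * ε⁻¹ ^ ρ) ^ 4 := pow_le_pow_left₀ hL0 hL1 4
      _ = C1 ^ 4 * ((A : ℝ) ^ 4) ^ 3 * (ε⁻¹ ^ ρ) ^ 4 := by ring
      _ ≤ C1 ^ 4 * (C2 * ε ^ Lℓ) ^ 3 * (ε⁻¹ ^ ρ) ^ 4 := by
          apply mul_le_mul_of_nonneg_right _ (by positivity)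
          apply mul_le_mul_of_nonneg_left _ (by positivity)
          exact pow_le_pow_left₀ (by positivity) hA4 3
      _ = C1 ^ 4 * C2 ^ 3 * (ε ^ (3 * Lℓ) * (ε⁻¹ ^ ρ) ^ 4) := by
          have e3 : ε ^ (3 * Lℓ) = (ε ^ Lℓ) ^ 3 := by rw [← pow_mul, mul_comm]
          rw [e3]; ring
      _ ≤ C1 ^ 4 * C2 ^ 3 * (ε ^ 6 * ε⁻¹ ^ K1) :=
          mul_le_mul_of_nonneg_left hr4 (by positivity)
      _ = C1 ^ 4 * C2 ^ 3 * ε ^ 6 * ε⁻¹ ^ K1 := by ring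
      _ < η ^ 4 := hK1
  exact lt_of_pow_lt_pow_left₀ 4 hη.le hfin

end base

end Pool.Agent.T6.H43.LS
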