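import Mathlib

set_option autoImplicit false

/-!
Almost every point of `ℝ ^ r` has, at infinitely many scales `L`, very good rational approximations
of all its coordinates at the same time, with different denominators, all at most `L`.
-/

open MeasureTheory Filter Set Metric Topology

namespace Pool.Agent.T6.H43.LS

/-- points all of whose coordinates are fractions with denominators at most `L` -/
def RS (r L : ℕ) : Set (Fin r → ℝ) :=
  {x | ∀ j, ∃ (ℓ : ℕ) (a : ℤ), 1 ≤ ℓ ∧ ℓ ≤ L ∧ x j = a / ℓ}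

/-- the points of infinitely many neighbourhoods -/
def Bl (r : ℕ) (M : ℝ) : Set (Fin r → ℝ) :=
  blimsup (fun L : ℕ => cthickening (M * (1 / (L : ℝ) ^ 2)) (RS r L)) atTop (fun _ => True)

lemma Bl_ae (r : ℕ) {M : ℝ} (hM : 0 < M) : Bl r M =ᵐ[volume] Bl r 1 := by
  have h0 : Tendsto (fun L : ℕ => 1 / (L : ℝ) ^ 2) atTop (𝓝 0) := by
    have h := (tendsto_pow_atTop (α := ℝ) (n := 2) (by norm_num)).comp
      (tendsto_natCast_atTop_atTop (R := ℝ))
    have h' := tendsto_inv_atTop_zero.comp h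
    refine h'.congr fun L => ?_
    simp
  have h1 := blimsup_cthickening_mul_ae_eq (volume : Measure (Fin r → ℝ)) (fun _ => True) (RS r) hM
    (fun L : ℕ => 1 / (L : ℝ) ^ 2) h0
  have h2 : Bl r 1 = (blimsup (fun L : ℕ => cthickening (1 / (L : ℝ) ^ 2) (RS r L)) atTop
      (fun _ => True) : Set (Fin r → ℝ)) := by
    unfold Bl
    simp only [one_mul]
  rw [h2]
  exact h1

/-- the coordinates which are badly approximated at the scale `L` -/
def WW (n M L : ℕ) : Set ℝ :=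
  ⋃ ℓ ∈ Finset.Icc 1 (L / M), ⋃ a ∈ Finset.Icc (-((n : ℤ) + 1) * ℓ) ((n + 1) * ℓ),
    closedBall ((a : ℝ) / (ℓ : ℝ)) (1 / (ℓ * L))

lemma WW_vol (n M L : ℕ) (hM : 0 < M) (hL : 0 < L) :
    volume (WW n M L) ≤ ENNReal.ofReal ((4 * n + 6) / M) := by
  have hLr : (0 : ℝ) < L := by exact_mod_cast hL
  have hMr : (0 : ℝ) < M := by exact_mod_cast hM
  unfold WW
  refine (measure_biUnion_finset_le _ _).trans ?_
  calc ∑ ℓ ∈ Finset.Icc 1 (L / M), volume (⋃ a ∈ Finset.Icc (-((n : ℤ) + 1) * ℓ) ((n + 1) * ℓ),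
        closedBall ((a : ℝ) / (ℓ : ℝ)) (1 / (ℓ * L)))
      ≤ ∑ ℓ ∈ Finset.Icc 1 (L / M), ENNReal.ofReal ((4 * n + 6) / L) := by
        refine Finset.sum_le_sum fun ℓ hℓ => ?_
        rw [Finset.mem_Icc] at hℓ
        have hℓr : (1 : ℝ) ≤ ℓ := by exact_mod_cast hℓ.1
        refine (measure_biUnion_finset_le _ _).trans ?_
        have h1 : ∀ a : ℤ, volume (closedBall ((a : ℝ) / (ℓ : ℝ)) (1 / (ℓ * L)))
            = ENNReal.ofReal (2 * (1 / (ℓ * L))) := fun a => Real.volume_closedBall _ _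
        simp only [h1]
        rw [Finset.sum_const, nsmul_eq_mul, ← ENNReal.ofReal_natCast,
          ← ENNReal.ofReal_mul (by positivity)]
        apply ENNReal.ofReal_le_ofReal
        have h2 : (((Finset.Icc (-((n : ℤ) + 1) * ℓ) ((n + 1) * ℓ)).card : ℕ) : ℝ)
            ≤ (2 * n + 3) * ℓ := by
          rw [Int.card_Icc]
          have h3 : (((n : ℤ) + 1) * ℓ + 1 - -((n : ℤ) + 1) * ℓ).toNat = 2 * (n + 1) * ℓ + 1 := by
            have : ((n : ℤ) + 1) * ℓ + 1 - -((n : ℤ) + 1) * ℓ = ((2 * (n + 1) * ℓ + 1 : ℕ) : ℤ) := by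
              push_cast; ring
            rw [this, Int.toNat_natCast]
          rw [h3]
          push_cast
          nlinarith
        calc (((Finset.Icc (-((n : ℤ) + 1) * ℓ) ((n + 1) * ℓ)).card : ℕ) : ℝ) * (2 * (1 / (ℓ * L)))
            ≤ ((2 * n + 3) * ℓ) * (2 * (1 / (ℓ * L))) :=
              mul_le_mul_of_nonneg_right h2 (by positivity)
          _ = (4 * n + 6) / L := by
              field_simp
              ring
    _ = ENNReal.ofReal (((L / M : ℕ) : ℝ) * ((4 * n + 6) / L)) := by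
        rw [Finset.sum_const, Nat.card_Icc, Nat.add_sub_cancel, nsmul_eq_mul,
          ← ENNReal.ofReal_natCast, ← ENNReal.ofReal_mul (by positivity)]
    _ ≤ _ := by
        apply ENNReal.ofReal_le_ofReal
        have h4 : ((L / M : ℕ) : ℝ) ≤ L / M := Nat.cast_div_le
        calc ((L / M : ℕ) : ℝ) * ((4 * n + 6) / L) ≤ (L / M) * ((4 * n + 6) / L) :=
              mul_le_mul_of_nonneg_right h4 (by positivity)
          _ = _ := by field_simp

lemma mem_cth (r n M L : ℕ) (hM : 0 < M) (hL : 0 < L) (x : Fin r → ℝ) (hx : ∀ j, |x j| ≤ n)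
    (h : x ∉ cthickening ((M : ℝ) * (1 / (L : ℝ) ^ 2)) (RS r L)) : ∃ j, x j ∈ WW n M L := by
  have hLr : (0 : ℝ) < L := by exact_mod_cast hL
  have hMr : (0 : ℝ) < M := by exact_mod_cast hM
  by_contra hcon
  push Not at hcon
  apply h
  have hA : ∀ j, ∃ (ℓ : ℕ) (a : ℤ), 1 ≤ ℓ ∧ ℓ ≤ L ∧ |x j - a / ℓ| ≤ M * (1 / (L : ℝ) ^ 2) := by
    intro j
    obtain ⟨k, hk0, hkL, hk⟩ := Real.exists_nat_abs_mul_sub_round_le (x j) hL
    have hkr : (1 : ℝ) ≤ k := by exact_mod_cast hk0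
    have hk' : |(k : ℝ) * x j - round ((k : ℝ) * x j)| ≤ 1 / L :=
      hk.trans (one_div_le_one_div_of_le hLr (by linarith))
    have e1 : x j - (round ((k : ℝ) * x j) : ℝ) / k
        = ((k : ℝ) * x j - round ((k : ℝ) * x j)) / k := by
      field_simp
    have e2 : |x j - (round ((k : ℝ) * x j) : ℝ) / k| ≤ 1 / (k * L) := by
      rw [e1, abs_div, abs_of_pos (by linarith : (0 : ℝ) < k), div_le_iff₀ (by linarith)]
      calc |(k : ℝ) * x j - round ((k : ℝ) * x j)| ≤ 1 / L := hk'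
        _ = 1 / (k * L) * k := by field_simp
    refine ⟨k, round ((k : ℝ) * x j), hk0, hkL, e2.trans ?_⟩
    have hkM : L < k * M := by
      by_contra hkM
      push Not at hkM
      apply hcon j
      unfold WW
      have h1 : k ≤ L / M := (Nat.le_div_iff_mul_le hM).2 hkM
      refine mem_biUnion (Finset.mem_coe.2 (Finset.mem_Icc.2 ⟨hk0, h1⟩)) ?_
      refine mem_biUnion (x := round ((k : ℝ) * x j)) ?_ ?_
      · rw [Finset.mem_coe, Finset.mem_Icc]
        have h2 : |((round ((k : ℝ) * x j) : ℤ) : ℝ)| ≤ (n + 1) * k := by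
          have h3 := abs_sub_round ((k : ℝ) * x j)
          have h4 : |(k : ℝ) * x j| ≤ k * n := by
            rw [abs_mul, abs_of_pos (by linarith : (0 : ℝ) < k)]
            exact mul_le_mul_of_nonneg_left (hx j) (by linarith)
          rw [abs_le] at h3 h4 ⊢
          constructor <;> nlinarith
        rw [abs_le] at h2
        constructor
        · have : ((-((n : ℤ) + 1) * k : ℤ) : ℝ) ≤ ((round ((k : ℝ) * x j) : ℤ) : ℝ) := by
            push_cast; linarith [h2.1]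
          exact_mod_cast this
        · have : ((round ((k : ℝ) * x j) : ℤ) : ℝ) ≤ ((((n : ℤ) + 1) * k : ℤ) : ℝ) := by
            push_cast; linarith [h2.2]
          exact_mod_cast this
      · rw [mem_closedBall, Real.dist_eq]
        exact e2
    have hkMr : (L : ℝ) ≤ k * M := by exact_mod_cast hkM.le
    rw [mul_one_div, div_le_div_iff₀ (by positivity) (by positivity)]
    nlinarith
  choose ℓ a h1 h2 h3 using hA
  refine mem_cthickening_of_dist_le x (fun j => (a j : ℝ) / (ℓ j : ℝ)) _ _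
    (fun j => ⟨ℓ j, a j, h1 j, h2 j, rfl⟩) ?_
  rw [dist_pi_le_iff (by positivity)]
  intro j
  rw [Real.dist_eq]
  exact h3 j

lemma box_vol (r n M L : ℕ) (hM : 0 < M) (hL : 0 < L) :
    volume ({x : Fin r → ℝ | ∀ j, |x j| ≤ n} \ cthickening ((M : ℝ) * (1 / (L : ℝ) ^ 2)) (RS r L))
      ≤ ENNReal.ofReal (r * ((2 * n) ^ (r - 1) * ((4 * n + 6) / M))) := by
  classical
  have hsub : {x : Fin r → ℝ | ∀ j, |x j| ≤ n} \ cthickening ((M : ℝ) * (1 / (L : ℝ) ^ 2)) (RS r L)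
      ⊆ ⋃ j : Fin r, pi univ (fun i => if i = j then WW n M L else closedBall (0 : ℝ) n) := by
    rintro x ⟨hx, hx2⟩
    obtain ⟨j, hj⟩ := mem_cth r n M L hM hL x hx hx2
    rw [mem_iUnion]
    refine ⟨j, fun i _ => ?_⟩
    by_cases hij : i = j
    · subst hij
      simpa using hj
    · simp only [hij, if_false]
      rw [mem_closedBall, dist_zero_right, Real.norm_eq_abs]
      exact hx i
  refine (measure_mono hsub).trans ?_
  refine (measure_iUnion_fintype_le _ _).trans ?_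
  have hj : ∀ j : Fin r, volume (pi univ (fun i => if i = j then WW n M L
      else closedBall (0 : ℝ) n)) ≤ ENNReal.ofReal ((2 * n) ^ (r - 1) * ((4 * n + 6) / M)) := by
    intro j
    rw [volume_pi_pi, ← Finset.mul_prod_erase Finset.univ _ (Finset.mem_univ j)]
    simp only [if_true]
    have h1 : ∏ i ∈ Finset.univ.erase j, volume (if i = j then WW n M L else closedBall (0 : ℝ) n)
        = ENNReal.ofReal ((2 * n) ^ (r - 1)) := by
      rw [Finset.prod_congr rfl (g := fun _ => ENNReal.ofReal (2 * n))]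
      · rw [Finset.prod_const, Finset.card_erase_of_mem (Finset.mem_univ j), Finset.card_univ,
          Fintype.card_fin, ENNReal.ofReal_pow (by positivity)]
      · intro i hi
        rw [if_neg (Finset.ne_of_mem_erase hi), Real.volume_closedBall]
    rw [h1, ENNReal.ofReal_mul (by positivity), mul_comm]
    gcongr
    exact WW_vol n M L hM hL
  refine (Finset.sum_le_sum fun j _ => hj j).trans ?_
  rw [Finset.sum_const, Finset.card_univ, Fintype.card_fin, nsmul_eq_mul, ← ENNReal.ofReal_natCast,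
    ← ENNReal.ofReal_mul (by positivity)]

lemma Bl_compl (r n M : ℕ) (hM : 0 < M) :
    volume ({x : Fin r → ℝ | ∀ j, |x j| ≤ n} \ Bl r M)
      ≤ ENNReal.ofReal (r * ((2 * n) ^ (r - 1) * ((4 * n + 6) / M))) := by
  set Q : Set (Fin r → ℝ) := {x : Fin r → ℝ | ∀ j, |x j| ≤ n} with hQ
  set T : ℕ → Set (Fin r → ℝ) := fun N => ⋂ L ∈ Ici (N + 1),
    (Q \ cthickening ((M : ℝ) * (1 / ((L : ℕ) : ℝ) ^ 2)) (RS r L)) with hT
  have hsub : Q \ Bl r M ⊆ ⋃ N, T N := by
    rintro x ⟨hx, hx2⟩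
    unfold Bl at hx2
    rw [blimsup_true, mem_limsup_iff_frequently_mem, not_frequently, eventually_atTop] at hx2
    obtain ⟨N, hN⟩ := hx2
    rw [mem_iUnion]
    refine ⟨N, ?_⟩
    rw [hT, mem_iInter₂]
    intro L hL
    rw [mem_Ici] at hL
    exact ⟨hx, hN L (by omega)⟩
  have hmono : Monotone T := by
    intro N N' hNN'
    refine biInter_mono ?_ (fun _ _ => subset_rfl)
    intro L hL
    rw [mem_Ici] at hL ⊢
    omega
  refine (measure_mono hsub).trans ?_
  rw [hmono.measure_iUnion]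
  refine iSup_le fun N => ?_
  refine (measure_mono ?_).trans (box_vol r n M (N + 1) hM (by omega))
  exact biInter_subset_of_mem (mem_Ici.2 le_rfl)

lemma Bl_full (r : ℕ) {η : ℝ} (hη : 0 < η) : ∀ᵐ x : Fin r → ℝ, x ∈ Bl r η := by
  have h0 : ∀ n : ℕ, volume ({x : Fin r → ℝ | ∀ j, |x j| ≤ n} \ Bl r η) = 0 := by
    intro n
    have h1 : ∀ M : ℕ, 0 < M → volume ({x : Fin r → ℝ | ∀ j, |x j| ≤ n} \ Bl r η)
        ≤ ENNReal.ofReal ((r * ((2 * n) ^ (r - 1) * (4 * n + 6))) / M) := by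
      intro M hM
      have hMr : (0 : ℝ) < M := by exact_mod_cast hM
      have h2 : ({x : Fin r → ℝ | ∀ j, |x j| ≤ n} \ Bl r η : Set (Fin r → ℝ)) =ᵐ[volume]
          ({x : Fin r → ℝ | ∀ j, |x j| ≤ n} \ Bl r M : Set (Fin r → ℝ)) :=
        (ae_eq_refl _).diff ((Bl_ae r hη).trans (Bl_ae r hMr).symm)
      rw [measure_congr h2]
      refine (Bl_compl r n M hM).trans (le_of_eq ?_)
      congr 1
      ring
    set C : ℝ := r * ((2 * n) ^ (r - 1) * (4 * n + 6)) with hC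
    have h3 : Tendsto (fun M : ℕ => ENNReal.ofReal (C / M)) atTop (𝓝 0) := by
      rw [← ENNReal.ofReal_zero]
      exact (ENNReal.continuous_ofReal.tendsto 0).comp (tendsto_const_div_atTop_nhds_zero_nat C)
    have h4 : volume ({x : Fin r → ℝ | ∀ j, |x j| ≤ n} \ Bl r η) ≤ 0 :=
      ge_of_tendsto h3 (eventually_atTop.2 ⟨1, fun M hM => h1 M (by omega)⟩)
    exact le_antisymm h4 zero_le
  rw [ae_iff]
  have h5 : {x : Fin r → ℝ | ¬ x ∈ Bl r η} ⊆ ⋃ n : ℕ, ({x : Fin r → ℝ | ∀ j, |x j| ≤ n} \ Bl r η) := by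
    intro x hx
    rw [mem_iUnion]
    obtain ⟨n, hn⟩ := exists_nat_ge (∑ j, |x j|)
    refine ⟨n, ⟨fun j => ?_, hx⟩⟩
    exact (Finset.single_le_sum (f := fun j => |x j|) (fun _ _ => abs_nonneg _)
      (Finset.mem_univ j)).trans hn
  exact measure_mono_null h5 (measure_iUnion_null h0)

/-- **Good approximations of all coordinates at a common scale.** -/
def SC {r : ℕ} (θ : Fin r → ℝ) : Prop :=
  ∀ η : ℝ, 0 < η → ∀ N : ℕ, ∃ L : ℕ, N ≤ L ∧ 0 < L ∧
    ∀ j, ∃ (ℓ : ℕ) (a : ℤ), 1 ≤ ℓ ∧ ℓ ≤ L ∧ |ℓ * θ j - a| ≤ η / L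

theorem SC_ae (r : ℕ) : ∀ᵐ θ : Fin r → ℝ, SC θ := by
  have h1 : ∀ᵐ θ : Fin r → ℝ, ∀ m : ℕ, θ ∈ Bl r (1 / ((m : ℝ) + 1)) :=
    ae_all_iff.2 fun m => Bl_full r (by positivity)
  filter_upwards [h1] with θ hθ
  intro η hη N
  obtain ⟨m, hm⟩ := exists_nat_gt (2 / η)
  have hm0 : (0 : ℝ) < (m : ℝ) + 1 := by positivity
  have h2 := hθ m
  unfold Bl at h2
  rw [blimsup_true, mem_limsup_iff_frequently_mem] at h2
  obtain ⟨L, hL1, hL2⟩ := (h2.and_eventually (eventually_ge_atTop (N + 1))).exists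
  have hL0 : 0 < L := by omega
  have hLr : (0 : ℝ) < L := by exact_mod_cast hL0
  refine ⟨L, by omega, hL0, ?_⟩
  have h3 : 1 / ((m : ℝ) + 1) * (1 / (L : ℝ) ^ 2) < η * (1 / (L : ℝ) ^ 2) := by
    apply mul_lt_mul_of_pos_right _ (by positivity)
    rw [div_lt_iff₀ hm0]
    rw [div_lt_iff₀ hη] at hm
    nlinarith
  have h4 := cthickening_subset_thickening' (by positivity) h3 _ hL1
  rw [mem_thickening_iff] at h4
  obtain ⟨z, hz, hd⟩ := h4
  intro j
  obtain ⟨ℓ, a, hℓ1, hℓ2, hz'⟩ := hz j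
  refine ⟨ℓ, a, hℓ1, hℓ2, ?_⟩
  have h5 : |θ j - z j| ≤ η * (1 / (L : ℝ) ^ 2) := by
    rw [← Real.dist_eq]
    exact (dist_le_pi_dist θ z j).trans hd.le
  have hℓ0 : (0 : ℝ) < ℓ := by exact_mod_cast hℓ1
  have hℓL : (ℓ : ℝ) ≤ L := by exact_mod_cast hℓ2
  have e1 : (ℓ : ℝ) * θ j - a = ℓ * (θ j - z j) := by
    rw [hz']
    field_simp
  rw [e1, abs_mul, abs_of_pos hℓ0]
  calc (ℓ : ℝ) * |θ j - z j| ≤ L * (η * (1 / (L : ℝ) ^ 2)) :=
        mul_le_mul hℓL h5 (abs_nonneg _) hLr.le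
    _ = η / L := by field_simp

end Pool.Agent.T6.H43.LS
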