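import Pool.Agent.T6.H43.LS.Dio
import Pool.Agent.T6.H43.LS.Steps

set_option autoImplicit false

/-!
Several codings of rotations with simultaneous long windows of matches near the beginning.
-/

open Filter Set

namespace Pool.Agent.T6.H43.LS

open Pool.Agent.R329.LitCodes (Step)

/-- the distance to the nearest integer -/
noncomputable def nd (x : ℝ) : ℝ := |x - round x|

lemma nd_le (x : ℝ) (m : ℤ) : nd x ≤ |x - m| := round_le x m

lemma nd_nonneg (x : ℝ) : 0 ≤ nd x := abs_nonneg _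

/-- best approximations -/
lemma best {θ : ℝ} (L : ℕ) (κ : ℝ) (h : ∃ (ℓ : ℕ) (a : ℤ), 1 ≤ ℓ ∧ ℓ ≤ L ∧ |ℓ * θ - a| ≤ κ) :
    ∃ ℓ : ℕ, 1 ≤ ℓ ∧ ℓ ≤ L ∧ ∀ i : ℕ, 1 ≤ i → (i : ℝ) * (2 * κ) < 1 → nd (ℓ * θ) ≤ nd (i * θ) := by
  obtain ⟨ℓ0, a0, h1, h2, h3⟩ := h
  obtain ⟨ℓ, hℓ, hmin⟩ := Finset.exists_min_image (Finset.Icc 1 L) (fun i : ℕ => nd (i * θ))
    ⟨ℓ0, Finset.mem_Icc.2 ⟨h1, h2⟩⟩
  rw [Finset.mem_Icc] at hℓ
  refine ⟨ℓ, hℓ.1, hℓ.2, fun i hi1 hi2 => ?_⟩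
  by_contra hcon
  push Not at hcon
  have hκ : nd (ℓ * θ) ≤ κ :=
    (hmin ℓ0 (Finset.mem_Icc.2 ⟨h1, h2⟩)).trans ((nd_le _ a0).trans h3)
  have hiL : L < i := by
    by_contra hle
    push Not at hle
    have := hmin i (Finset.mem_Icc.2 ⟨hi1, hle⟩)
    linarith
  have hiℓ : ℓ < i := by omega
  have hℓr : (0 : ℝ) < ℓ := by exact_mod_cast hℓ.1
  have hir : (0 : ℝ) < i := by exact_mod_cast hi1
  have hiℓr : (ℓ : ℝ) < i := by exact_mod_cast hiℓ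
  set a : ℤ := round ((ℓ : ℝ) * θ) with ha
  set b : ℤ := round ((i : ℝ) * θ) with hb
  have e1 : (a : ℝ) * i - b * ℓ = ℓ * (i * θ - b) - i * (ℓ * θ - a) := by ring
  by_cases hab : a * i = b * ℓ
  · have hab' : (a : ℝ) * i - b * ℓ = 0 := by
      have : ((a * i : ℤ) : ℝ) = ((b * ℓ : ℤ) : ℝ) := by rw [hab]
      push_cast at this
      linarith
    rw [hab'] at e1
    have e2 : ℓ * |(i : ℝ) * θ - b| = i * |(ℓ : ℝ) * θ - a| := by
      have e3 : (ℓ : ℝ) * (i * θ - b) = i * (ℓ * θ - a) := by linarith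
      have e4 := congrArg abs e3
      rwa [abs_mul, abs_mul, abs_of_pos hℓr, abs_of_pos hir] at e4
    have h5 : nd ((i : ℝ) * θ) < nd ((ℓ : ℝ) * θ) := hcon
    unfold nd at h5
    have h6 : 0 ≤ |(i : ℝ) * θ - b| := abs_nonneg _
    nlinarith
  · have h4 : (1 : ℝ) ≤ |(a : ℝ) * i - b * ℓ| := by
      have : (1 : ℤ) ≤ |a * i - b * ℓ| := Int.one_le_abs (sub_ne_zero.2 hab)
      exact_mod_cast this
    rw [e1] at h4
    have h5 : |(ℓ : ℝ) * (i * θ - b) - i * (ℓ * θ - a)| ≤ ℓ * nd (i * θ) + i * nd (ℓ * θ) := by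
      refine (abs_sub _ _).trans ?_
      rw [abs_mul, abs_mul, abs_of_pos hℓr, abs_of_pos hir]
      rfl
    have h6 : (ℓ : ℝ) * nd (i * θ) ≤ i * κ :=
      mul_le_mul hiℓr.le (hcon.le.trans hκ) (nd_nonneg _) hir.le
    have h7 : (i : ℝ) * nd (ℓ * θ) ≤ i * κ := mul_le_mul_of_nonneg_left hκ hir.le
    linarith

/-- an orbit hits a point only once -/
lemma hit {θ : ℝ} (hθ : Irrational θ) (y d : ℝ) :
    ∃ s : ℕ, ∀ k : ℕ, s ≤ k → ∀ m : ℤ, y + k * θ ≠ d + m := by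
  by_cases h : ∃ (k : ℕ) (m : ℤ), y + k * θ = d + m
  · obtain ⟨k, m, h⟩ := h
    refine ⟨k + 1, fun k' hk' m' h' => ?_⟩
    have h1 : ((k' - k : ℕ) : ℝ) * θ = ((m' - m : ℤ) : ℝ) := by
      rw [Nat.cast_sub (by omega)]
      push_cast
      linarith
    exact (hθ.natCast_mul (m := k' - k) (by omega)).ne_int _ h1
  · push Not at h
    exact ⟨0, fun k _ m => h k m⟩

/-- the bad times -/
lemma bad {A : Type} {D : Finset ℝ} {F : ℝ → A} (S : Step D F) (θ : ℝ) (y : ℝ) (k ℓ : ℕ)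
    (hk : ∀ d ∈ D, ∀ m : ℤ, y + k * θ ≠ d + m) (hkℓ : ∀ d ∈ D, ∀ m : ℤ, y + ((k + ℓ : ℕ) : ℝ) * θ ≠ d + m)
    (h : F (y + ((k + ℓ : ℕ) : ℝ) * θ) ≠ F (y + k * θ)) :
    ∃ d ∈ D, ∃ m : ℤ, |(y + k * θ) + (ℓ * θ - round (ℓ * θ)) / 2 - (d + m)| < nd (ℓ * θ) / 2 := by
  set z : ℝ := y + k * θ with hz
  set η : ℝ := ℓ * θ - round (ℓ * θ) with hη
  have e1 : y + ((k + ℓ : ℕ) : ℝ) * θ = z + η + (round (ℓ * θ) : ℤ) := by
    rw [hz, hη]; push_cast; ring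
  rw [e1, S.per_int] at h
  have hnd : nd (ℓ * θ) = |η| := rfl
  rw [hnd]
  have hne1 : ∀ d ∈ D, ∀ m : ℤ, z + η ≠ d + m := by
    intro d hd m h0
    apply hkℓ d hd (m + round (ℓ * θ))
    rw [e1, h0]
    push_cast
    ring
  rcases le_total 0 η with h0 | h0
  · have h1 : ¬ ∀ d ∈ D, ∀ m : ℤ, ¬ (z ≤ d + m ∧ d + m ≤ z + η) := by
      intro hall
      exact h (S.const z (z + η) (by linarith) hall).symm
    push Not at h1
    obtain ⟨d, hd, m, h2, h3⟩ := h1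
    refine ⟨d, hd, m, ?_⟩
    have h4 := lt_of_le_of_ne h2 (hk d hd m)
    have h5 := lt_of_le_of_ne h3 (hne1 d hd m).symm
    rw [abs_of_nonneg h0, abs_lt]
    constructor <;> linarith
  · have h1 : ¬ ∀ d ∈ D, ∀ m : ℤ, ¬ (z + η ≤ d + m ∧ d + m ≤ z) := by
      intro hall
      exact h (S.const (z + η) z (by linarith) hall)
    push Not at h1
    obtain ⟨d, hd, m, h2, h3⟩ := h1
    refine ⟨d, hd, m, ?_⟩
    have h4 := lt_of_le_of_ne h2 (hne1 d hd m)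
    have h5 := lt_of_le_of_ne h3 (hk d hd m).symm
    rw [abs_of_nonpos h0, abs_lt]
    constructor <;> linarith

/-- the total number of discontinuities -/
def tot {r : ℕ} (D : Fin r → Finset ℝ) : ℕ := ∑ j, (D j).card

theorem window2 {r : ℕ} (θ : Fin r → ℝ) (hθ : ∀ j, Irrational (θ j)) (D : Fin r → Finset ℝ)
    {A : Type} (F : Fin r → ℝ → A) (S : ∀ j, Step (D j) (F j)) (y : Fin r → ℝ) :
    ∃ s0 : ℕ, ∀ n : ℕ, 0 < n → ∀ ℓ : Fin r → ℕ,
      (∀ j, ∀ i : ℕ, 1 ≤ i → i < (tot D + 1) * n → nd (ℓ j * θ j) ≤ nd (i * θ j)) →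
      ∃ s, s0 ≤ s ∧ s ≤ s0 + tot D * n ∧ ∀ j k, s ≤ k → k < s + n →
        F j (y j + ((k + ℓ j : ℕ) : ℝ) * θ j) = F j (y j + k * θ j) := by
  classical
  choose sj hsj using fun (j : Fin r) (d : ℝ) => hit (hθ j) (y j) d
  refine ⟨∑ j, ∑ d ∈ D j, sj j d, ?_⟩
  set s0 : ℕ := ∑ j, ∑ d ∈ D j, sj j d with hs0
  have hs0' : ∀ j, ∀ d ∈ D j, sj j d ≤ s0 := by
    intro j d hd
    exact (Finset.single_le_sum (f := fun d => sj j d) (fun _ _ => Nat.zero_le _) hd).trans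
      (Finset.single_le_sum (f := fun j => ∑ d ∈ D j, sj j d) (fun _ _ => Nat.zero_le _)
        (Finset.mem_univ j))
  have hno : ∀ j k, s0 ≤ k → ∀ d ∈ D j, ∀ m : ℤ, y j + (k : ℕ) * θ j ≠ d + m :=
    fun j k hk d hd m => hsj j d k ((hs0' j d hd).trans hk) m
  intro n hn ℓ hℓ
  by_contra hcon
  push Not at hcon
  have hbad : ∀ i : Fin (tot D + 1), ∃ (x : Σ _ : Fin r, ℝ) (k : ℕ) (m : ℤ),
      x ∈ Finset.univ.sigma D ∧ s0 + i * n ≤ k ∧ k < s0 + i * n + n ∧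
      |(y x.1 + k * θ x.1) + (ℓ x.1 * θ x.1 - round (ℓ x.1 * θ x.1)) / 2 - (x.2 + m)|
        < nd (ℓ x.1 * θ x.1) / 2 := by
    intro i
    obtain ⟨j, k, hk1, hk2, hne⟩ := hcon (s0 + i * n) (by omega)
      (by have := Nat.mul_le_mul_right n (Nat.lt_succ_iff.1 i.2); omega)
    obtain ⟨d, hd, m, hm⟩ := bad (S j) (θ j) (y j) k (ℓ j)
      (hno j k (by omega)) (hno j (k + ℓ j) (by omega)) hne
    exact ⟨⟨j, d⟩, k, m, by simp [hd], hk1, hk2, hm⟩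
  choose x k m hx hk1 hk2 hm using hbad
  have hcard : (Finset.univ.sigma D).card < (Finset.univ : Finset (Fin (tot D + 1))).card := by
    rw [Finset.card_sigma, Finset.card_univ, Fintype.card_fin]
    unfold tot
    omega
  obtain ⟨i, -, i', -, hii, hxx⟩ := Finset.exists_ne_map_eq_of_card_lt_of_maps_to hcard
    (f := x) (fun i _ => hx i)
  have main : ∀ i i' : Fin (tot D + 1), i < i' → x i = x i' → False := by
    intro i i' hlt hxx
    have hlt' : (i : ℕ) + 1 ≤ i' := hlt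
    have h1 : ((i : ℕ) + 1) * n ≤ i' * n := Nat.mul_le_mul_right n hlt'
    have h2 : ((i' : ℕ) + 1) * n ≤ (tot D + 1) * n := Nat.mul_le_mul_right n i'.2
    have h1a := hk2 i
    have h1b := hk1 i'
    have h1c := hk2 i'
    have h1d := hk1 i
    rw [Nat.add_mul, one_mul] at h1 h2
    have hkk : k i < k i' := by omega
    have hkk2 : k i' - k i < (tot D + 1) * n := by omega
    have hm1 := hm i
    have hm2 := hm i'
    rw [← hxx] at hm2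
    have h3 := hℓ (x i).1 (k i' - k i) (by omega) hkk2
    have h4 : nd (((k i' - k i : ℕ) : ℝ) * θ (x i).1) < nd (ℓ (x i).1 * θ (x i).1) := by
      refine (nd_le _ (m i' - m i)).trans_lt ?_
      rw [Nat.cast_sub hkk.le]
      push_cast
      rw [abs_lt] at hm1 hm2 ⊢
      constructor <;> linarith
    linarith
  rcases lt_or_gt_of_ne hii with h | h
  · exact main i i' h hxx
  · exact main i' i h hxx.symm

/-- `w` has windows `[s, s + n)` with `s ≤ (τ + δ) n` on which the `w j` are periodic with periods whose sum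
is at most `δ n`. -/
def Win {r : ℕ} (w : Fin r → ℕ → ℝ) (τ : ℝ) : Prop :=
  ∀ δ : ℝ, 0 < δ → ∀ N : ℕ, ∃ (s n : ℕ) (ℓ : Fin r → ℕ), N ≤ n ∧ (s : ℝ) ≤ (τ + δ) * n ∧
    (∀ i, 0 < ℓ i) ∧ ((∑ i, ℓ i : ℕ) : ℝ) ≤ δ * n ∧
    ∀ j k, s ≤ k → k < s + n → w j (k + ℓ j) = w j k

theorem win_of_SC {r : ℕ} (θ : Fin r → ℝ) (hθ : ∀ j, Irrational (θ j)) (hS : SC θ)
    (D : Fin r → Finset ℝ) (F : Fin r → ℝ → ℝ) (S : ∀ j, Step (D j) (F j)) (y : Fin r → ℝ) :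
    Win (fun j k => F j (y j + k * θ j)) (tot D) := by
  obtain ⟨s0, hs0⟩ := window2 θ hθ D F S y
  intro δ hδ N
  obtain ⟨m, hm⟩ := exists_nat_gt (((r : ℝ) + 1) / δ)
  have hm0 : (0 : ℝ) < m := lt_of_le_of_lt (by positivity) hm
  have hm0' : 0 < m := by exact_mod_cast hm0
  rw [div_lt_iff₀ hδ] at hm
  set η : ℝ := 1 / (4 * (tot D + 1) * m) with hη
  have hη0 : 0 < η := by positivity
  obtain ⟨L, hLN, hL0, hL⟩ := hS η hη0 (N + s0)
  have hLr : (0 : ℝ) < L := by exact_mod_cast hL0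
  choose ℓ hℓ1 hℓ2 hℓ3 using fun j => best (θ := θ j) L (η / L) (hL j)
  have hn0 : 0 < m * L := Nat.mul_pos hm0' hL0
  obtain ⟨s, hs1, hs2, hw⟩ := hs0 (m * L) hn0 ℓ (by
    intro j i hi1 hi2
    refine hℓ3 j i hi1 ?_
    have hi2' : (i : ℝ) < (tot D + 1) * (m * L) := by exact_mod_cast hi2
    calc (i : ℝ) * (2 * (η / L)) < ((tot D + 1) * (m * L)) * (2 * (η / L)) :=
          mul_lt_mul_of_pos_right hi2' (by positivity)
      _ = 1 / 2 := by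
          rw [hη]
          field_simp
          norm_num
      _ < 1 := by norm_num)
  have hmL : L ≤ m * L := Nat.le_mul_of_pos_left L hm0'
  have hδn : ((r : ℝ) + 1) * L ≤ δ * ((m * L : ℕ) : ℝ) := by
    push_cast
    calc ((r : ℝ) + 1) * L ≤ (m * δ) * L := mul_le_mul_of_nonneg_right hm.le hLr.le
      _ = δ * (m * L) := by ring
  refine ⟨s, m * L, ℓ, by omega, ?_, fun j => hℓ1 j, ?_, hw⟩
  · have h1 : (s : ℝ) ≤ s0 + tot D * ((m * L : ℕ) : ℝ) := by exact_mod_cast hs2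
    have h2 : (s0 : ℝ) ≤ L := by
      have : s0 ≤ L := by omega
      exact_mod_cast this
    have h3 : (L : ℝ) ≤ ((r : ℝ) + 1) * L := by nlinarith [Nat.cast_nonneg (α := ℝ) r]
    linarith
  · have h1 : ∑ j, ℓ j ≤ r * L := by
      calc ∑ j, ℓ j ≤ ∑ _j : Fin r, L := Finset.sum_le_sum fun j _ => hℓ2 j
        _ = r * L := by rw [Finset.sum_const, Finset.card_univ, Fintype.card_fin, smul_eq_mul]
    have h2 : ((∑ j, ℓ j : ℕ) : ℝ) ≤ r * L := by exact_mod_cast h1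
    linarith

end Pool.Agent.T6.H43.LS
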