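import Pool.Agent.T6.H43.LS.Rate
import Pool.Agent.T6.H43.LS.Gap

set_option autoImplicit false

/-!
Power savings for digits in the field, with windows of periodic summands, and for general units.
-/

open Filter Set

namespace Pool.Agent.T6.H43.LS

open Pool.H389R2.LC

/-- `q ^ (1 + η) ‖q α‖ ‖q β‖ < 1` for infinitely many `q` -/
def Saves (η α β : ℝ) : Prop := ∀ N : ℕ, ∃ q : ℕ, N ≤ q ∧ 0 < q ∧ (q : ℝ) ^ η * L α β q < 1

lemma saves_scale {η η' α β : ℝ} (hη : η < η') (hη0 : 0 < η) (m : ℕ) (hm : 0 < m)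
    (h : Saves η' α (m * β)) : Saves η α β := by
  intro N
  have hmr : (0 : ℝ) < m := by exact_mod_cast hm
  have hm1 : (1 : ℝ) ≤ m := by exact_mod_cast hm
  obtain ⟨Q, hQ⟩ := exists_nat_gt (((m : ℝ) ^ (2 + η)) ^ (1 / (η' - η)))
  have hd : 0 < η' - η := by linarith
  obtain ⟨q, hq1, hq2, hq3⟩ := h (N + Q + 1)
  have hq0 : (0 : ℝ) < q := by exact_mod_cast hq2
  refine ⟨m * q, by nlinarith, Nat.mul_pos hm hq2, ?_⟩
  have hL : L α β (m * q) ≤ m ^ 2 * L α (m * β) q := by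
    unfold L
    have h1 : |((m * q : ℕ) : ℝ) * α - (round (((m * q : ℕ) : ℝ) * α) : ℝ)|
        ≤ m * |(q : ℝ) * α - (round ((q : ℝ) * α) : ℝ)| := by
      refine (round_le _ ((m : ℤ) * round ((q : ℝ) * α))).trans (le_of_eq ?_)
      rw [show ((m * q : ℕ) : ℝ) * α - (((m : ℤ) * round ((q : ℝ) * α) : ℤ) : ℝ)
        = m * ((q : ℝ) * α - (round ((q : ℝ) * α) : ℝ)) by push_cast; ring, abs_mul,
        abs_of_pos hmr]
    have h2 : ((m * q : ℕ) : ℝ) * β = (q : ℝ) * (m * β) := by push_cast; ring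
    rw [h2]
    have h3 : 0 ≤ |(q : ℝ) * (m * β) - (round ((q : ℝ) * (m * β)) : ℝ)| := abs_nonneg _
    calc ((m * q : ℕ) : ℝ) * |((m * q : ℕ) : ℝ) * α - (round (((m * q : ℕ) : ℝ) * α) : ℝ)|
          * |(q : ℝ) * (m * β) - (round ((q : ℝ) * (m * β)) : ℝ)|
        ≤ ((m * q : ℕ) : ℝ) * (m * |(q : ℝ) * α - (round ((q : ℝ) * α) : ℝ)|)
          * |(q : ℝ) * (m * β) - (round ((q : ℝ) * (m * β)) : ℝ)| :=
          mul_le_mul_of_nonneg_right (mul_le_mul_of_nonneg_left h1 (by positivity)) h3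
      _ = m ^ 2 * ((q : ℝ) * |(q : ℝ) * α - (round ((q : ℝ) * α) : ℝ)|
          * |(q : ℝ) * (m * β) - (round ((q : ℝ) * (m * β)) : ℝ)|) := by push_cast; ring
  have hqm : (m : ℝ) ^ (2 + η) ≤ (q : ℝ) ^ (η' - η) := by
    have h1 : ((m : ℝ) ^ (2 + η)) ^ (1 / (η' - η)) ≤ q := by
      have : (Q : ℝ) ≤ q := by
        have : Q ≤ q := by omega
        exact_mod_cast this
      linarith
    have h2 := Real.rpow_le_rpow (by positivity) h1 hd.le
    rwa [← Real.rpow_mul (by positivity), one_div, inv_mul_cancel₀ hd.ne', Real.rpow_one] at h2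
  have hL0 := L_nonneg α (m * β) q
  have e1 : ((m * q : ℕ) : ℝ) ^ η = (m : ℝ) ^ η * (q : ℝ) ^ η := by
    rw [Nat.cast_mul, Real.mul_rpow hmr.le hq0.le]
  have e2 : (m : ℝ) ^ (2 + η) = m ^ 2 * (m : ℝ) ^ η := by
    rw [Real.rpow_add hmr]
    norm_cast
  have e3 : (q : ℝ) ^ η' = (q : ℝ) ^ (η' - η) * (q : ℝ) ^ η := by
    rw [← Real.rpow_add hq0]
    congr 1
    ring
  have hqη : 0 < (q : ℝ) ^ η := Real.rpow_pos_of_pos hq0 _
  calc ((m * q : ℕ) : ℝ) ^ η * L α β (m * q)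
      ≤ ((m : ℝ) ^ η * (q : ℝ) ^ η) * (m ^ 2 * L α (m * β) q) := by
        rw [e1]
        exact mul_le_mul_of_nonneg_left hL (by positivity)
    _ = (m : ℝ) ^ (2 + η) * ((q : ℝ) ^ η * L α (m * β) q) := by rw [e2]; ring
    _ ≤ (q : ℝ) ^ (η' - η) * ((q : ℝ) ^ η * L α (m * β) q) :=
        mul_le_mul_of_nonneg_right hqm (by positivity)
    _ = (q : ℝ) ^ η' * L α (m * β) q := by rw [e3]; ring
    _ < 1 := hq3

lemma rat_rel {α ε : ℝ} (a b : ℚ) (hα : α = a + b * ε) :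
    ((a.den * b.den : ℕ) : ℝ) * α = ((a.num * b.den : ℤ) : ℝ) + ((b.num * a.den : ℤ) : ℝ) * ε := by
  have ha : (a.den : ℝ) * (a : ℝ) = a.num := by
    have := Rat.mul_den_eq_num a
    have h2 : ((a * a.den : ℚ) : ℝ) = ((a.num : ℚ) : ℝ) := by rw [this]
    push_cast at h2
    linarith
  have hb' : (b.den : ℝ) * (b : ℝ) = b.num := by
    have := Rat.mul_den_eq_num b
    have h2 : ((b * b.den : ℚ) : ℝ) = ((b.num : ℚ) : ℝ) := by rw [this]
    push_cast at h2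
    linarith
  rw [hα]
  push_cast
  linear_combination (b.den : ℝ) * ha + (a.den : ℝ) * ε * hb'

lemma bdd_of_finite {r : ℕ} {A : Fin r → ℕ → ℤ} (h : (⋃ j, Set.range (A j)).Finite) :
    ∃ B : ℝ, 0 ≤ B ∧ ∀ j k, |(A j k : ℝ)| ≤ B := by
  refine ⟨∑ x ∈ h.toFinset, |(x : ℝ)|, Finset.sum_nonneg fun _ _ => abs_nonneg _, fun j y => ?_⟩
  refine Finset.single_le_sum (f := fun x : ℤ => |(x : ℝ)|) (fun _ _ => abs_nonneg _) ?_
  rw [Set.Finite.mem_toFinset, Set.mem_iUnion]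
  exact ⟨j, y, rfl⟩

section base
variable {t : ℤ} {ε : ℝ} (hb : Base t ε)
include hb

/-- digits in the field, norm one -/
theorem field_rate (α : ℝ) (hα : ∃ a b : ℚ, α = a + b * ε) {r : ℕ} (w : Fin r → ℕ → ℝ)
    (hfin : (⋃ j, Set.range (w j)).Finite) (hw : ∀ j k, ∃ a b : ℚ, w j k = a + b * ε)
    (τ : ℝ) (hτ : 0 ≤ τ) (hwin : Win w τ) (η : ℝ) (hη0 : 0 < η) (hη : η * (2 * τ + 1) < 1) :
    Saves η α (∑' k : ℕ, (∑ j, w j k) * ε⁻¹ ^ k) := by
  classical
  have hr0 := hb.rpos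
  have hr1 := hb.rlt
  have hm1 := hb.mul
  have hadd := hb.add
  obtain ⟨m, hm, hT⟩ := common_den ε hfin.toFinset (by
    intro x hx
    rw [Set.Finite.mem_toFinset, Set.mem_iUnion] at hx
    obtain ⟨j, z, rfl⟩ := hx
    exact hw j z)
  have hT' : ∀ x : ℝ, ∃ a b : ℤ, x ∈ hfin.toFinset → (m : ℝ) * x = a + b * ε := by
    intro x
    by_cases hx : x ∈ hfin.toFinset
    · obtain ⟨a, b, h⟩ := hT x hx
      exact ⟨a, b, fun _ => h⟩
    · exact ⟨0, 0, fun h => absurd h hx⟩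
  choose fa fb hfab using hT'
  have hmem : ∀ j z, w j z ∈ hfin.toFinset := by
    intro j z
    rw [Set.Finite.mem_toFinset, Set.mem_iUnion]
    exact ⟨j, z, rfl⟩
  set A : Fin r → ℕ → ℤ := fun j x => fa (w j x) with hA
  set Bf : Fin r → ℕ → ℤ := fun j x => fb (w j x) with hBf
  have hAfin : (⋃ j, Set.range (A j)).Finite := by
    refine (hfin.image fa).subset ?_
    intro z hz
    rw [Set.mem_iUnion] at hz
    obtain ⟨j, k, rfl⟩ := hz
    exact ⟨w j k, Set.mem_iUnion.2 ⟨j, k, rfl⟩, rfl⟩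
  have hBfin : (⋃ j, Set.range (Bf j)).Finite := by
    refine (hfin.image fb).subset ?_
    intro z hz
    rw [Set.mem_iUnion] at hz
    obtain ⟨j, k, rfl⟩ := hz
    exact ⟨w j k, Set.mem_iUnion.2 ⟨j, k, rfl⟩, rfl⟩
  obtain ⟨BA, hBA0, hBA⟩ := bdd_of_finite hAfin
  obtain ⟨BB, hBB0, hBB⟩ := bdd_of_finite hBfin
  have hval : ∀ j x, (m : ℝ) * w j x = A j x + Bf j x * ε := fun j x => hfab _ (hmem j x)
  set u : ℕ → ℤ := fun k => ∑ j, A j k with hu
  set v : ℕ → ℤ := fun k => ∑ j, Bf j k with hv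
  set d : Fin r → ℕ → ℤ := fun j k => A j k + Bf j (k + 1) with hd
  set e : ℕ → ℤ := fun k => u k + v (k + 1) + (if k = 0 then t * v 0 else if k = 1 then - v 0 else 0)
    with he
  have hub : ∀ k, |(u k : ℝ)| ≤ r * BA := by
    intro k
    rw [hu]
    push_cast
    calc |∑ j, (A j k : ℝ)| ≤ ∑ j, |(A j k : ℝ)| := Finset.abs_sum_le_sum_abs _ _
      _ ≤ ∑ _j : Fin r, BA := Finset.sum_le_sum fun j _ => hBA j _
      _ = r * BA := by rw [Finset.sum_const, Finset.card_univ, Fintype.card_fin, nsmul_eq_mul]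
  have hvb : ∀ k, |(v k : ℝ)| ≤ r * BB := by
    intro k
    rw [hv]
    push_cast
    calc |∑ j, (Bf j k : ℝ)| ≤ ∑ j, |(Bf j k : ℝ)| := Finset.abs_sum_le_sum_abs _ _
      _ ≤ ∑ _j : Fin r, BB := Finset.sum_le_sum fun j _ => hBB j _
      _ = r * BB := by rw [Finset.sum_const, Finset.card_univ, Fintype.card_fin, nsmul_eq_mul]
  have hgeo : Summable (fun k : ℕ => ε⁻¹ ^ k) := summable_geometric_of_lt_one hr0.le hr1
  have hsu : Summable (fun k : ℕ => (u k : ℝ) * ε⁻¹ ^ k) := by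
    refine Summable.of_norm_bounded (g := fun k => (r * BA) * ε⁻¹ ^ k) (hgeo.mul_left _) ?_
    intro k
    rw [norm_mul, Real.norm_eq_abs, Real.norm_eq_abs, abs_of_nonneg (pow_nonneg hr0.le k)]
    exact mul_le_mul_of_nonneg_right (hub k) (pow_nonneg hr0.le k)
  have hsv : Summable (fun k : ℕ => (v k : ℝ) * ε⁻¹ ^ k) := by
    refine Summable.of_norm_bounded (g := fun k => (r * BB) * ε⁻¹ ^ k) (hgeo.mul_left _) ?_
    intro k
    rw [norm_mul, Real.norm_eq_abs, Real.norm_eq_abs, abs_of_nonneg (pow_nonneg hr0.le k)]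
    exact mul_le_mul_of_nonneg_right (hvb k) (pow_nonneg hr0.le k)
  obtain ⟨U0, hU0⟩ := hsu
  obtain ⟨V0, hV0⟩ := hsv
  -- the left side
  have hL : HasSum (fun k : ℕ => (m : ℝ) * ((∑ j, w j k) * ε⁻¹ ^ k)) (U0 + ε * V0) := by
    refine (hU0.add (hV0.mul_left ε)).congr_fun ?_
    intro k
    have h1 : (m : ℝ) * ∑ j, w j k = u k + v k * ε := by
      rw [hu, hv, Finset.mul_sum]
      push_cast
      rw [Finset.sum_mul, ← Finset.sum_add_distrib]
      exact Finset.sum_congr rfl fun j _ => hval j _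
    rw [← mul_assoc, h1]
    ring
  -- the right side
  have hV1 : HasSum (fun k : ℕ => (v (k + 1) : ℝ) * ε⁻¹ ^ (k + 1)) (V0 - v 0) := by
    have := (hasSum_nat_add_iff' (f := fun k : ℕ => (v k : ℝ) * ε⁻¹ ^ k) 1).2 hV0
    simpa using this
  have hH : HasSum (fun k : ℕ => ((if k = 0 then t * v 0 else if k = 1 then - v 0 else 0 : ℤ) : ℝ)
      * ε⁻¹ ^ k) (t * v 0 - v 0 * ε⁻¹) := by
    have this : HasSum (fun k : ℕ =>
      ((if k = 0 then t * v 0 else if k = 1 then - v 0 else 0 : ℤ) : ℝ) * ε⁻¹ ^ k)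
      (∑ k ∈ Finset.range 2,
        ((if k = 0 then t * v 0 else if k = 1 then - v 0 else 0 : ℤ) : ℝ) * ε⁻¹ ^ k) := by
      apply hasSum_sum_of_ne_finset_zero
      intro k hk
      rw [Finset.mem_range] at hk
      simp [show k ≠ 0 by omega, show k ≠ 1 by omega]
    rw [Finset.sum_range_succ, Finset.sum_range_one] at this
    convert this using 1
    push_cast
    simp
    ring
  have hR := (hU0.add (hV1.mul_left ε)).add hH
  have hR' : HasSum (fun k : ℕ => (e k : ℝ) * ε⁻¹ ^ k) (U0 + ε * V0) := by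
    have e1 : U0 + ε * (V0 - v 0) + (t * v 0 - v 0 * ε⁻¹) = U0 + ε * V0 := by
      rw [← hadd]; ring
    rw [e1] at hR
    refine hR.congr_fun ?_
    intro k
    rw [he]
    push_cast
    rw [pow_succ]
    linear_combination -(v (k + 1) : ℝ) * ε⁻¹ ^ k * hm1
  have hβ : (m : ℝ) * (∑' k : ℕ, (∑ j, w j k) * ε⁻¹ ^ k) = ∑' k : ℕ, (e k : ℝ) * ε⁻¹ ^ k := by
    rw [← tsum_mul_left, hL.tsum_eq, hR'.tsum_eq]
  -- the exponents
  set η' : ℝ := (η + 1 / (2 * τ + 1)) / 2 with hη'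
  have h2τ : 0 < 2 * τ + 1 := by linarith
  have hη1 : η < 1 / (2 * τ + 1) := by rw [lt_div_iff₀ h2τ]; exact hη
  have hηη' : η < η' := by rw [hη']; linarith
  have hη'1 : η' * (2 * τ + 1) < 1 := by
    rw [← lt_div_iff₀ h2τ, hη']; linarith
  refine saves_scale hηη' hη0 m hm ?_
  obtain ⟨a, b, hab⟩ := hα
  have hc : 0 < a.den * b.den := Nat.mul_pos a.den_pos b.den_pos
  set B' : ℝ := r * BA + r * BB + (|(t * v 0 : ℝ)| + |(v 0 : ℝ)|) + BA + BB with hB'
  have hrA : 0 ≤ r * BA := by positivity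
  have hrB : 0 ≤ r * BB := by positivity
  have heB : ∀ k, |(e k : ℝ)| ≤ B' := by
    intro k
    have h3 : |(((if k = 0 then t * v 0 else if k = 1 then - v 0 else 0 : ℤ)) : ℝ)|
        ≤ |(t * v 0 : ℝ)| + |(v 0 : ℝ)| := by
      have p1 := abs_nonneg (t * v 0 : ℝ)
      have p2 := abs_nonneg (v 0 : ℝ)
      split_ifs
      · push_cast; linarith
      · push_cast; rw [abs_neg]; linarith
      · push_cast; rw [abs_zero]; linarith
    rw [he]
    push_cast at h3 ⊢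
    refine (abs_add_le _ _).trans ?_
    have h4 := abs_add_le (u k : ℝ) (v (k + 1) : ℝ)
    have h5 := hub k
    have h6 := hvb (k + 1)
    rw [hB']
    linarith
  have hdB : ∀ j k, |(d j k : ℝ)| ≤ B' := by
    intro j k
    rw [hd]
    push_cast
    refine (abs_add_le _ _).trans ?_
    have h5 := hBA j k
    have h6 := hBB j (k + 1)
    have p1 := abs_nonneg (t * v 0 : ℝ)
    have p2 := abs_nonneg (v 0 : ℝ)
    rw [hB']
    linarith
  refine sum_rate hb α _ _ _ _ hc (rat_rel a b hab) r d B' hdB e heB hβ τ hτ ?_ η'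
    (by linarith) hη'1
  intro δ hδ N
  obtain ⟨M, hM⟩ := exists_nat_gt ((2 + 3 * (τ + δ)) / (δ / 2))
  rw [div_lt_iff₀ (by positivity)] at hM
  obtain ⟨s, n, ℓ, hn, hs, hℓ, hLℓ, hper⟩ := hwin (δ / 2) (by positivity) (N + M + 3)
  have hnM : (M : ℝ) ≤ n := by
    have : M ≤ n := by omega
    exact_mod_cast this
  have hnn : (((n - 3 : ℕ)) : ℝ) = n - 3 := by
    rw [Nat.cast_sub (by omega)]; norm_num
  have hkey : 2 + 3 * (τ + δ) ≤ n * (δ / 2) := by
    have : (M : ℝ) * (δ / 2) ≤ n * (δ / 2) := mul_le_mul_of_nonneg_right hnM (by positivity)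
    linarith
  refine ⟨s + 2, n - 3, ℓ, by omega, ?_, hℓ, ?_, ?_, ?_⟩
  · rw [hnn]
    push_cast
    have e1 : (τ + δ) * ((n : ℝ) - 3) = (τ + δ / 2) * n + n * (δ / 2) - 3 * (τ + δ) := by ring
    rw [e1]
    linarith
  · rw [hnn]
    have e1 : δ * ((n : ℝ) - 3) = δ / 2 * n + n * (δ / 2) - 3 * δ := by ring
    rw [e1]
    linarith
  · intro k hk1 hk2
    rw [he]
    simp only [show k ≠ 0 by omega, show k ≠ 1 by omega, if_false, add_zero, hu, hv, hd]
    rw [← Finset.sum_add_distrib]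
  · intro j k hk1 hk2
    have h1 := hper j k (by omega) (by omega)
    have h2 := hper j (k + 1) (by omega) (by omega)
    simp only [hd, hA, hBf]
    rw [h1, show k + ℓ j + 1 = k + 1 + ℓ j by ring, h2]

end base

end Pool.Agent.T6.H43.LS
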