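import Pool.Agent.T6.H43.LS.Main

set_option autoImplicit false

/-!
Littlewood's conjecture for a quadratic `α` and for sums of codings of several rotations: general units.
-/

open Filter Polynomial

namespace Pool.Agent.T6.H43.LS

open Pool.Agent.R329.LitCodes (Step Littlewood)
open Pool.H389R2.LC

lemma irr_unit (t σ : ℤ) (hσ : σ = 1 ∨ σ = -1) (ε : ℝ) (h1 : 1 < ε) (hq : ε ^ 2 - t * ε + σ = 0) :
    Irrational ε := by
  rintro ⟨q, rfl⟩
  have hq' : q ^ 2 - t * q + σ = 0 := by exact_mod_cast hq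
  have h1' : (1 : ℚ) < q := by exact_mod_cast h1
  have hint : IsIntegral ℤ q := by
    refine ⟨X ^ 2 + (C (-t) * X + C σ), ?_, ?_⟩
    · apply monic_X_pow_add
      exact degree_linear_le.trans_lt (by norm_num)
    · simp only [eval₂_add, eval₂_pow, eval₂_X, eval₂_mul, eval₂_C]
      rw [← hq']
      simp
      ring
  rw [IsIntegrallyClosed.isIntegral_iff] at hint
  obtain ⟨n, hn⟩ := hint
  rw [eq_intCast] at hn
  subst hn
  have hn1 : 1 < n := by exact_mod_cast h1'
  have hn2 : n ^ 2 - t * n + σ = 0 := by exact_mod_cast hq'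
  have hdvd : n ∣ σ := ⟨t - n, by linarith⟩
  rcases hσ with rfl | rfl
  · have := Int.le_of_dvd one_pos hdvd
    omega
  · have := Int.le_of_dvd one_pos ((Int.dvd_neg).1 hdvd)
    omega

lemma SC_two {r : ℕ} {θ : Fin r → ℝ} (h : SC θ) : SC (fun j => 2 * θ j) := by
  intro η hη N
  obtain ⟨L, hL1, hL2, hL⟩ := h (η / 2) (by positivity) N
  refine ⟨L, hL1, hL2, fun j => ?_⟩
  obtain ⟨ℓ, a, h1, h2, h3⟩ := hL j
  refine ⟨ℓ, 2 * a, h1, h2, ?_⟩
  have hLr : (0 : ℝ) < L := by exact_mod_cast hL2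
  have e1 : (ℓ : ℝ) * (2 * θ j) - ((2 * a : ℤ) : ℝ) = 2 * (ℓ * θ j - a) := by push_cast; ring
  rw [e1, abs_mul, abs_of_pos (by norm_num : (0 : ℝ) < 2)]
  calc 2 * |(ℓ : ℝ) * θ j - a| ≤ 2 * (η / 2 / L) := by linarith
    _ = η / L := by ring

theorem final {r : ℕ} (θ : Fin r → ℝ) (hθ : ∀ j, Irrational (θ j)) (hS : SC θ) (α ε : ℝ)
    (h1 : 1 < ε) (hu : ∃ u v : ℚ, ε = u + v * α) (hq : ∃ t σ : ℤ, (σ = 1 ∨ σ = -1) ∧
      ε ^ 2 - t * ε + σ = 0) (D : Fin r → Finset ℝ) (F : Fin r → ℝ → ℝ)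
    (S : ∀ j, Step (D j) (F j)) (hF : ∀ j x, ∃ a b : ℚ, F j x = a + b * α) (y : Fin r → ℝ) :
    Littlewood α (∑' k : ℕ, (∑ j, F j (y j + k * θ j)) * ε⁻¹ ^ k) := by
  obtain ⟨u, v, huv⟩ := hu
  obtain ⟨t, σ, hσ, hq⟩ := hq
  have hε0 : 0 < ε := by linarith
  have hirr := irr_unit t σ hσ ε h1 hq
  have hv : v ≠ 0 := by
    rintro rfl
    apply hirr
    exact ⟨u, by rw [huv]; simp⟩
  have hvr : (v : ℝ) ≠ 0 := by exact_mod_cast hv
  have hα : α = ((-u / v : ℚ) : ℝ) + ((1 / v : ℚ) : ℝ) * ε := by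
    rw [huv]
    push_cast
    field_simp
    ring
  have hF' : ∀ j x, ∃ a b : ℚ, F j x = a + b * ε := by
    intro j x
    obtain ⟨a, b, hab⟩ := hF j x
    refine ⟨a + b * (-u / v), b * (1 / v), ?_⟩
    rw [hab]
    conv_lhs => rw [hα]
    push_cast
    ring
  rcases hσ with rfl | rfl
  · -- norm one
    push_cast at hq
    have ht : 3 ≤ t := by
      have h2 : (0 : ℝ) < (t - 2) * ε := by nlinarith [sq_nonneg (ε - 1), sq_pos_of_pos (by linarith : 0 < ε - 1)]
      have h3 : (0 : ℝ) < t - 2 := pos_of_mul_pos_left h2 hε0.le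
      have h4 : (2 : ℝ) < t := by linarith
      have h5 : (2 : ℤ) < t := by exact_mod_cast h4
      omega
    have hb : Base t ε := ⟨ht, h1, hq⟩
    exact field_case hb α ⟨_, _, hα⟩ θ hθ hS D F S hF' y
  · -- norm minus one
    push_cast at hq
    have hsq : ε ^ 2 = t * ε + 1 := by linarith
    have ht : 1 ≤ t := by
      have h2 : (0 : ℝ) < t * ε := by nlinarith
      have h3 : (0 : ℝ) < t := pos_of_mul_pos_left h2 hε0.le
      have h5 : (0 : ℤ) < t := by exact_mod_cast h3
      omega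
    have htr : (t : ℝ) ≠ 0 := by
      have : t ≠ 0 := by omega
      exact_mod_cast this
    have hb : Base (t ^ 2 + 2) (ε ^ 2) := by
      refine ⟨by nlinarith, by nlinarith, ?_⟩
      push_cast
      rw [hsq]
      linear_combination (t : ℝ) ^ 2 * hsq
    have hinv : ε⁻¹ = ε - t := by
      rw [inv_eq_iff_eq_inv]
      refine eq_inv_of_mul_eq_one_left ?_
      linarith
    have hE : ε = ((-1 / t : ℚ) : ℝ) + ((1 / t : ℚ) : ℝ) * ε ^ 2 := by
      rw [hsq]
      push_cast
      field_simp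
      ring
    set G : Fin r → ℝ → ℝ := fun j x => F j x + F j (x + θ j) * ε⁻¹ with hG
    have hGS : ∀ j, Step (D j ∪ (D j).image (fun d => d - θ j)) (G j) := fun j =>
      Step.map2 (S j) (Step.shift (S j) (θ j)) (fun a b => a + b * ε⁻¹)
    have hGF : ∀ j x, ∃ a b : ℚ, G j x = a + b * (ε ^ 2 : ℝ) := by
      intro j x
      obtain ⟨a, b, hab⟩ := hF' j x
      obtain ⟨c, d, hcd⟩ := hF' j (x + θ j)
      refine ⟨a + d - c * t + (b + c) * (-1 / t), (b + c) * (1 / t), ?_⟩
      rw [hG]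
      simp only
      rw [hab, hcd, hinv]
      have e1 : (a : ℝ) + b * ε + (c + d * ε) * (ε - t) = (a + d - c * t) + (b + c) * ε := by
        linear_combination (d : ℝ) * hsq
      rw [e1]
      conv_lhs => rw [hE]
      push_cast
      ring
    have hα2 : ∃ a b : ℚ, α = a + b * (ε ^ 2 : ℝ) := by
      refine ⟨-u / v + 1 / v * (-1 / t), 1 / v * (1 / t), ?_⟩
      rw [hα]
      conv_lhs => rw [hE]
      push_cast
      ring
    have key := field_case hb α hα2 (fun j => 2 * θ j)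
      (fun j => by
        have := (hθ j).natCast_mul (m := 2) (by norm_num)
        exact_mod_cast this) (SC_two hS) _ G hGS hGF y
    have hr0 : 0 < ε⁻¹ := inv_pos.2 hε0
    have hr1 : ε⁻¹ < 1 := inv_lt_one_of_one_lt₀ h1
    obtain ⟨B, hB0, hB⟩ := Step.boundedR S
    have hgeo : Summable (fun k : ℕ => ε⁻¹ ^ k) := summable_geometric_of_lt_one hr0.le hr1
    set f : ℕ → ℝ := fun k => (∑ j, F j (y j + k * θ j)) * ε⁻¹ ^ k with hf
    have hsf : Summable f := by
      refine Summable.of_norm_bounded (g := fun k => (r * B) * ε⁻¹ ^ k) (hgeo.mul_left _) ?_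
      intro k
      rw [hf, norm_mul, Real.norm_eq_abs, Real.norm_eq_abs, abs_of_nonneg (pow_nonneg hr0.le k)]
      apply mul_le_mul_of_nonneg_right _ (pow_nonneg hr0.le k)
      calc |∑ j, F j (y j + k * θ j)| ≤ ∑ j, |F j (y j + k * θ j)| :=
            Finset.abs_sum_le_sum_abs _ _
        _ ≤ ∑ _j : Fin r, B := Finset.sum_le_sum fun j _ => hB j _
        _ = r * B := by rw [Finset.sum_const, Finset.card_univ, Fintype.card_fin, nsmul_eq_mul]
    have he : Summable fun k => f (2 * k) := hsf.comp_injective fun a b h => by omega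
    have ho : Summable fun k => f (2 * k + 1) := hsf.comp_injective fun a b h => by omega
    have hsum : ∑' k, f k = ∑' k : ℕ, (∑ j, G j (y j + k * (2 * θ j))) * (ε ^ 2)⁻¹ ^ k := by
      rw [← tsum_even_add_odd he ho, ← he.tsum_add ho]
      apply tsum_congr
      intro k
      rw [hf, hG]
      simp only
      rw [Finset.sum_add_distrib, ← Finset.sum_mul, ← inv_pow, ← pow_mul, pow_succ]
      have e1 : ∀ j, y j + ((2 * k : ℕ) : ℝ) * θ j = y j + k * (2 * θ j) := by
        intro j; push_cast; ring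
      have e2 : ∀ j, y j + ((2 * k + 1 : ℕ) : ℝ) * θ j = y j + k * (2 * θ j) + θ j := by
        intro j; push_cast; ring
      simp only [e1, e2]
      ring
    rw [hsum]
    exact key

/-- almost all vectors have irrational coordinates -/
lemma irr_ae (r : ℕ) : ∀ᵐ θ : Fin r → ℝ, ∀ j, Irrational (θ j) := by
  rw [MeasureTheory.ae_all_iff]
  intro j
  have h1 : ∀ᵐ x : ℝ, Irrational x := by
    rw [MeasureTheory.ae_iff]
    have : {x : ℝ | ¬ Irrational x} = Set.range ((↑) : ℚ → ℝ) := by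
      ext x; simp [Irrational]
    rw [this]
    exact (Set.countable_range _).measure_zero _
  exact (MeasureTheory.Measure.quasiMeasurePreserving_eval (fun _ : Fin r => (MeasureTheory.volume :
    MeasureTheory.Measure ℝ)) j).ae h1

end Pool.Agent.T6.H43.LS
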