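import Pool.Agent.T6.H43.LS.Dio
import Pool.Agent.R329.LitRot
import Pool.Agent.TH959.AL.Wey

set_option autoImplicit false

/-!
Several codings of rotations with simultaneous long windows of matches.
-/

open MeasureTheory Filter Set Metric Topology

namespace Pool.Agent.T6.H43.LS

open Pool.Agent.R329.LitCodes (Step)
open Pool.Agent.TH959.AL (closed_bound)

abbrev Ci := AddCircle (1 : ℝ)

/-- the closed set of non-matches -/
def KK (D : Finset ℝ) (η : ℝ) : Set Ci :=
  ⋃ d ∈ D, closedBall (((d - η / 2 : ℝ)) : Ci) (|η| / 2)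

lemma KK_closed (D : Finset ℝ) (η : ℝ) : IsClosed (KK D η) :=
  D.finite_toSet.isClosed_biUnion fun _ _ => Metric.isClosed_closedBall

lemma KK_vol (D : Finset ℝ) (η : ℝ) : volume (KK D η) ≤ ENNReal.ofReal (D.card * |η|) := by
  unfold KK
  refine (measure_biUnion_finset_le _ _).trans ?_
  have h2 : ∀ z : Ci, volume (Metric.closedBall z (|η| / 2)) ≤ ENNReal.ofReal |η| := by
    intro z
    rw [AddCircle.volume_closedBall]
    refine ENNReal.ofReal_le_ofReal ?_
    rw [show 2 * (|η| / 2) = |η| by ring]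
    exact min_le_right _ _
  refine (Finset.sum_le_sum fun d _ => h2 _).trans ?_
  rw [Finset.sum_const, nsmul_eq_mul, ← ENNReal.ofReal_natCast, ← ENNReal.ofReal_mul (by positivity)]

lemma match_of_notMem {A : Type} {D : Finset ℝ} {F : ℝ → A} (S : Step D F) (η p : ℝ)
    (h : ((p : ℝ) : Ci) ∉ KK D η) : F (p + η) = F p := by
  have hno : ∀ d ∈ D, ∀ m : ℤ, |η| / 2 < |p + η / 2 - d - m| := by
    intro d hd m
    by_contra hcon
    push Not at hcon
    apply h
    unfold KK
    refine Set.mem_biUnion hd ?_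
    rw [Metric.mem_closedBall, dist_eq_norm, ← AddCircle.coe_sub]
    have h1 : ‖((p - (d - η / 2) : ℝ) : Ci)‖ = |p - (d - η / 2) - round (p - (d - η / 2))| :=
      UnitAddCircle.norm_eq
    rw [h1]
    refine (round_le _ m).trans (le_trans (le_of_eq ?_) hcon)
    congr 1
    ring
  rcases le_total 0 η with h0 | h0
  · refine (S.const p (p + η) (by linarith) ?_).symm
    rintro d hd m ⟨h1, h2⟩
    have h3 := hno d hd m
    rw [abs_of_nonneg h0] at h3
    have h4 : |p + η / 2 - d - m| ≤ η / 2 := by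
      rw [abs_le]; constructor <;> linarith
    linarith
  · refine S.const (p + η) p (by linarith) ?_
    rintro d hd m ⟨h1, h2⟩
    have h3 := hno d hd m
    rw [abs_of_nonpos h0] at h3
    have h4 : |p + η / 2 - d - m| ≤ -η / 2 := by
      rw [abs_le]; constructor <;> linarith
    linarith

lemma order_zero {θ : ℝ} (hθ : Irrational θ) : addOrderOf ((θ : ℝ) : Ci) = 0 := by
  rw [addOrderOf_eq_zero_iff']
  intro n hn h
  rw [← AddCircle.coe_nsmul, AddCircle.coe_eq_zero_iff] at h
  obtain ⟨m, hm⟩ := h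
  rw [nsmul_eq_mul, zsmul_eq_mul, mul_one] at hm
  have h1 : Irrational ((n : ℝ) * θ) := hθ.natCast_mul (by omega)
  exact h1.ne_int m hm.symm

open Classical in
theorem window {r : ℕ} (θ : Fin r → ℝ) (hθ : ∀ j, Irrational (θ j)) (D : Fin r → Finset ℝ)
    {A : Type} (F : Fin r → ℝ → A) (S : ∀ j, Step (D j) (F j)) (y : Fin r → ℝ) (ℓ : Fin r → ℕ)
    (a : Fin r → ℤ) (n : ℕ) (hn : 0 < n)
    (h : (n : ℝ) * ∑ j, ((D j).card * |ℓ j * θ j - a j|) ≤ 1 / 4) (t0 : ℕ) :
    ∃ t, t0 ≤ t ∧ ∀ j k, t ≤ k → k < t + n →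
      F j (y j + ((k + ℓ j : ℕ) : ℝ) * θ j) = F j (y j + k * θ j) := by
  have hnr : (0 : ℝ) < n := by exact_mod_cast hn
  set η : Fin r → ℝ := fun j => ℓ j * θ j - a j with hη
  set γ : ℝ := 1 / (4 * n * (r + 1)) with hγ
  have hγ0 : 0 < γ := by positivity
  have hK : ∀ j, ∃ M0 : ℕ, ∀ M : ℕ, M0 ≤ M → ∀ s : Ci,
      (((Finset.range M).filter (fun m => s + m • ((θ j : ℝ) : Ci) ∈ KK (D j) (η j))).card : ℝ)
        ≤ ((D j).card * |η j| + γ) * M := by
    intro j
    refine closed_bound (order_zero (hθ j)) (KK_closed _ _) (by positivity) ?_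
    refine (KK_vol _ _).trans_lt ?_
    rw [ENNReal.ofReal_lt_ofReal_iff (by positivity)]
    linarith
  choose M0 hM0 using hK
  set M : ℕ := ∑ j, M0 j + 2 * n + 1 with hM
  have hMj : ∀ j, M0 j ≤ M := fun j => by
    have := Finset.single_le_sum (f := M0) (fun _ _ => Nat.zero_le _) (Finset.mem_univ j)
    omega
  set V : Fin r → Finset ℕ := fun j => (Finset.range M).filter
    (fun m => ((y j + t0 * θ j : ℝ) : Ci) + m • ((θ j : ℝ) : Ci) ∈ KK (D j) (η j)) with hV
  have hVc : ∀ j, ((V j).card : ℝ) ≤ ((D j).card * |η j| + γ) * M := fun j => hM0 j M (hMj j) _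
  have hsum : (n : ℝ) * ∑ j, ((V j).card : ℝ) ≤ M / 2 := by
    have h1 : ∑ j, ((V j).card : ℝ) ≤ (∑ j, ((D j).card * |η j|) + r * γ) * M := by
      calc ∑ j, ((V j).card : ℝ) ≤ ∑ j, ((D j).card * |η j| + γ) * M :=
            Finset.sum_le_sum fun j _ => hVc j
        _ = _ := by
            rw [← Finset.sum_mul, Finset.sum_add_distrib, Finset.sum_const, Finset.card_univ,
              Fintype.card_fin, nsmul_eq_mul]
    have h2 : (n : ℝ) * (r * γ) ≤ 1 / 4 := by
      rw [hγ]
      have h3 : (n : ℝ) * (r * (1 / (4 * n * (r + 1)))) = r / (4 * (r + 1)) := by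
        field_simp
      rw [h3, div_le_div_iff₀ (by positivity) (by norm_num)]
      nlinarith [Nat.cast_nonneg (α := ℝ) r]
    calc (n : ℝ) * ∑ j, ((V j).card : ℝ)
        ≤ n * ((∑ j, ((D j).card * |η j|) + r * γ) * M) := mul_le_mul_of_nonneg_left h1 hnr.le
      _ = (n * ∑ j, ((D j).card * |η j|) + n * (r * γ)) * M := by ring
      _ ≤ (1 / 4 + 1 / 4) * M := by
          apply mul_le_mul_of_nonneg_right _ (Nat.cast_nonneg _)
          linarith
      _ = M / 2 := by ring
  obtain ⟨t, ht, htV⟩ : ∃ t, t < M - n + 1 ∧ ∀ i, i < n → ∀ j, t + i ∉ V j := by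
    by_contra hcon
    push Not at hcon
    have hsub : Finset.range (M - n + 1) ⊆ (Finset.range n).biUnion fun i =>
        Finset.univ.biUnion fun j => (Finset.range (M - n + 1)).filter (fun t => t + i ∈ V j) := by
      intro t ht
      rw [Finset.mem_range] at ht
      obtain ⟨i, hi, j, hj⟩ := hcon t ht
      rw [Finset.mem_biUnion]
      refine ⟨i, Finset.mem_range.2 hi, ?_⟩
      rw [Finset.mem_biUnion]
      exact ⟨j, Finset.mem_univ _, Finset.mem_filter.2 ⟨Finset.mem_range.2 ht, hj⟩⟩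
    have hc1 : M - n + 1 ≤ ∑ _i ∈ Finset.range n, ∑ j, (V j).card := by
      calc M - n + 1 = (Finset.range (M - n + 1)).card := (Finset.card_range _).symm
        _ ≤ _ := Finset.card_le_card hsub
        _ ≤ _ := Finset.card_biUnion_le
        _ ≤ _ := by
            refine Finset.sum_le_sum fun i _ => ?_
            refine Finset.card_biUnion_le.trans ?_
            refine Finset.sum_le_sum fun j _ => ?_
            refine Finset.card_le_card_of_injOn (fun t => t + i) ?_ ?_
            · intro t ht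
              exact (Finset.mem_filter.1 (Finset.mem_coe.1 ht)).2
            · intro t _ t' _ htt
              simpa using htt
    rw [Finset.sum_const, Finset.card_range, smul_eq_mul] at hc1
    have hc2 : ((M - n + 1 : ℕ) : ℝ) ≤ n * ∑ j, ((V j).card : ℝ) := by exact_mod_cast hc1
    have hc3 : 2 * (M - n + 1) > M := by omega
    have hc4 : (2 : ℝ) * ((M - n + 1 : ℕ) : ℝ) > M := by exact_mod_cast hc3
    linarith
  refine ⟨t0 + t, by omega, fun j k hk1 hk2 => ?_⟩
  have hnot := htV (k - (t0 + t)) (by omega) j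
  have hk : t + (k - (t0 + t)) = k - t0 := by omega
  rw [hk, hV, Finset.mem_filter, not_and] at hnot
  have hnot2 := hnot (Finset.mem_range.2 (by omega))
  have hpt : ((y j + t0 * θ j : ℝ) : Ci) + (k - t0) • ((θ j : ℝ) : Ci)
      = ((y j + k * θ j : ℝ) : Ci) := by
    rw [← AddCircle.coe_nsmul, ← AddCircle.coe_add]
    congr 1
    rw [nsmul_eq_mul, Nat.cast_sub (by omega)]
    ring
  rw [hpt] at hnot2
  have hm := match_of_notMem (S j) (η j) _ hnot2
  rw [← hm]
  have e1 : y j + ((k + ℓ j : ℕ) : ℝ) * θ j = (y j + k * θ j + η j) + (a j : ℤ) := by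
    rw [hη]
    push_cast
    ring
  rw [e1, (S j).per_int]

end Pool.Agent.T6.H43.LS
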