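import Pool.Agent.T6.H43.LS.Crit
import Pool.Agent.T6.H43.LS.Window
import Pool.Agent.T6.H43.LS.Steps

set_option autoImplicit false

/-!
Littlewood's conjecture for a quadratic `α` and for sums of codings of several rotations.
-/

open Filter

namespace Pool.Agent.T6.H43.LS

open Pool.Agent.R329.LitCodes (Step Littlewood)
open Pool.H389R2.LC

lemma lit_scale {α β : ℝ} (m : ℕ) (hm : 0 < m) (h : Littlewood α (m * β)) : Littlewood α β := by
  intro η hη N
  have hmr : (0 : ℝ) < m := by exact_mod_cast hm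
  have hm1 : (1 : ℝ) ≤ m := by exact_mod_cast hm
  obtain ⟨q, hq1, hq2, hq3⟩ := h (η / m ^ 2) (by positivity) N
  refine ⟨m * q, by nlinarith, Nat.mul_pos hm hq2, ?_⟩
  have h1 : |((m * q : ℕ) : ℝ) * α - (round (((m * q : ℕ) : ℝ) * α) : ℝ)|
      ≤ m * |(q : ℝ) * α - (round ((q : ℝ) * α) : ℝ)| := by
    refine (round_le _ ((m : ℤ) * round ((q : ℝ) * α))).trans (le_of_eq ?_)
    rw [show ((m * q : ℕ) : ℝ) * α - (((m : ℤ) * round ((q : ℝ) * α) : ℤ) : ℝ)
      = m * ((q : ℝ) * α - (round ((q : ℝ) * α) : ℝ)) by push_cast; ring, abs_mul,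
      abs_of_pos hmr]
  have h2 : ((m * q : ℕ) : ℝ) * β = (q : ℝ) * (m * β) := by push_cast; ring
  rw [h2]
  have hq0 : (0 : ℝ) < q := by exact_mod_cast hq2
  have h3 : 0 ≤ |(q : ℝ) * (m * β) - (round ((q : ℝ) * (m * β)) : ℝ)| := abs_nonneg _
  calc ((m * q : ℕ) : ℝ) * |((m * q : ℕ) : ℝ) * α - (round (((m * q : ℕ) : ℝ) * α) : ℝ)|
        * |(q : ℝ) * (m * β) - (round ((q : ℝ) * (m * β)) : ℝ)|
      ≤ ((m * q : ℕ) : ℝ) * (m * |(q : ℝ) * α - (round ((q : ℝ) * α) : ℝ)|)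
        * |(q : ℝ) * (m * β) - (round ((q : ℝ) * (m * β)) : ℝ)| :=
        mul_le_mul_of_nonneg_right (mul_le_mul_of_nonneg_left h1 (by positivity)) h3
    _ = m ^ 2 * ((q : ℝ) * |(q : ℝ) * α - (round ((q : ℝ) * α) : ℝ)|
        * |(q : ℝ) * (m * β) - (round ((q : ℝ) * (m * β)) : ℝ)|) := by push_cast; ring
    _ < m ^ 2 * (η / m ^ 2) := mul_lt_mul_of_pos_left hq3 (by positivity)
    _ = η := by field_simp

lemma alg1 (a b C : ℝ) (ha : a ≠ 0) (hb : b ≠ 0) (hC : C + 1 ≠ 0) :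
    (a * b) * (C * (1 / (4 * a * (C + 1)) / b)) = 1 / 4 * (C / (C + 1)) := by
  field_simp

section base
variable {t : ℤ} {ε : ℝ} (hb : Base t ε)
include hb

/-- integer digits -/
theorem int_case (α β : ℝ) (a b : ℚ) (hα : α = a + b * ε) {r : ℕ} (θ : Fin r → ℝ)
    (hθ : ∀ j, Irrational (θ j)) (hS : SC θ) (D : Fin r → Finset ℝ) (F : Fin r → ℝ → ℤ)
    (S : ∀ j, Step (D j) (F j)) (y : Fin r → ℝ) (e : ℕ → ℤ)
    (he : ∀ k, 2 ≤ k → e k = ∑ j, F j (y j + k * θ j))
    (hβ : β = ∑' k : ℕ, (e k : ℝ) * ε⁻¹ ^ k) : Littlewood α β := by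
  obtain ⟨B, hB0, hB⟩ := Step.bounded S
  have hc : 0 < a.den * b.den := Nat.mul_pos a.den_pos b.den_pos
  have hαc : ((a.den * b.den : ℕ) : ℝ) * α
      = ((a.num * b.den : ℤ) : ℝ) + ((b.num * a.den : ℤ) : ℝ) * ε := by
    have ha : (a.den : ℝ) * (a : ℝ) = a.num := by
      have := Rat.mul_den_eq_num a
      have h2 : ((a * a.den : ℚ) : ℝ) = ((a.num : ℚ) : ℝ) := by rw [this]
      push_cast at h2
      linarith
    have hb' : (b.den : ℝ) * (b : ℝ) = b.num := by
      have := Rat.mul_den_eq_num b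
      have h2 : ((b * b.den : ℚ) : ℝ) = ((b.num : ℚ) : ℝ) := by rw [this]
      push_cast at h2
      linarith
    rw [hα]
    push_cast
    linear_combination (b.den : ℝ) * ha + (a.den : ℝ) * ε * hb'
  set B' : ℝ := r * B + |(e 0 : ℝ)| + |(e 1 : ℝ)| + B with hB'
  have heB : ∀ k, |(e k : ℝ)| ≤ B' := by
    intro k
    have h0 : (0 : ℝ) ≤ r * B := by positivity
    rcases Nat.lt_or_ge k 2 with hk | hk
    · interval_cases k
      · rw [hB']; linarith [abs_nonneg (e 1 : ℝ)]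
      · rw [hB']; linarith [abs_nonneg (e 0 : ℝ)]
    · rw [he k hk]
      push_cast
      calc |∑ j, (F j (y j + k * θ j) : ℝ)| ≤ ∑ j, |(F j (y j + k * θ j) : ℝ)| :=
            Finset.abs_sum_le_sum_abs _ _
        _ ≤ ∑ _j : Fin r, B := Finset.sum_le_sum fun j _ => hB j _
        _ = r * B := by rw [Finset.sum_const, Finset.card_univ, Fintype.card_fin, nsmul_eq_mul]
        _ ≤ B' := by rw [hB']; linarith [abs_nonneg (e 0 : ℝ), abs_nonneg (e 1 : ℝ)]
  refine sum_windows hb α β _ _ _ hc hαc r (fun j k => F j (y j + k * θ j)) B' ?_ e heB hβ ?_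
  · intro j k
    refine (hB j _).trans ?_
    rw [hB']
    have h0 : (0 : ℝ) ≤ r * B := by positivity
    linarith [abs_nonneg (e 0 : ℝ), abs_nonneg (e 1 : ℝ)]
  intro K
  obtain ⟨C, hC⟩ : ∃ C : ℝ, C = ∑ j, ((D j).card : ℝ) := ⟨_, rfl⟩
  have hC0 : 0 ≤ C := by
    rw [hC]; exact Finset.sum_nonneg fun _ _ => Nat.cast_nonneg _
  obtain ⟨L, hLN, hL0, hL⟩ := hS (1 / (4 * (2 * r + K + 1) * (C + 1))) (by positivity) 1
  have hLr : (1 : ℝ) ≤ L := by exact_mod_cast hLN
  choose ℓ c hℓ1 hℓ2 hℓ3 using hL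
  set n : ℕ := 2 * r * L + K + 1 with hn
  have hnL : (n : ℝ) ≤ (2 * r + K + 1) * L := by
    rw [hn]
    push_cast
    nlinarith [Nat.cast_nonneg (α := ℝ) K]
  have hwin : (n : ℝ) * ∑ j, ((D j).card * |ℓ j * θ j - c j|) ≤ 1 / 4 := by
    have h1 : ∑ j, ((D j).card * |ℓ j * θ j - c j|)
        ≤ C * (1 / (4 * (2 * r + K + 1) * (C + 1)) / L) := by
      calc ∑ j, ((D j).card * |ℓ j * θ j - c j|)
          ≤ ∑ j, (((D j).card : ℝ) * (1 / (4 * (2 * r + K + 1) * (C + 1)) / L)) :=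
            Finset.sum_le_sum fun j _ => mul_le_mul_of_nonneg_left (hℓ3 j) (Nat.cast_nonneg _)
        _ = _ := by rw [← Finset.sum_mul, ← hC]
    calc (n : ℝ) * ∑ j, ((D j).card * |ℓ j * θ j - c j|)
        ≤ ((2 * r + K + 1) * L) * (C * (1 / (4 * (2 * r + K + 1) * (C + 1)) / L)) := by
          apply mul_le_mul hnL h1 _ (by positivity)
          exact Finset.sum_nonneg fun _ _ => by positivity
      _ = 1 / 4 * (C / (C + 1)) := by
          have hL0' : (L : ℝ) ≠ 0 := by positivity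
          have hC1 : C + 1 ≠ 0 := by positivity
          have ha0 : (2 * r + K + 1 : ℝ) ≠ 0 := by positivity
          exact alg1 _ _ _ ha0 hL0' hC1
      _ ≤ 1 / 4 * 1 := by
          apply mul_le_mul_of_nonneg_left _ (by norm_num)
          rw [div_le_one (by positivity)]
          linarith
      _ = 1 / 4 := by ring
  obtain ⟨s, hs, hw⟩ := window θ hθ D F S y ℓ c n (by omega) hwin 2
  refine ⟨s, n, ℓ, fun j => hℓ1 j, ?_, fun k hk _ => he k (by omega), ?_⟩
  · have h1 : ∑ j, ℓ j ≤ r * L := by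
      calc ∑ j, ℓ j ≤ ∑ _j : Fin r, L := Finset.sum_le_sum fun j _ => hℓ2 j
        _ = r * L := by rw [Finset.sum_const, Finset.card_univ, Fintype.card_fin, smul_eq_mul]
    rw [hn]
    nlinarith
  · intro j k hk1 hk2
    exact hw j k hk1 (by omega)

/-- digits in the field, norm one -/
theorem field_case (α : ℝ) (hα : ∃ a b : ℚ, α = a + b * ε) {r : ℕ} (θ : Fin r → ℝ)
    (hθ : ∀ j, Irrational (θ j)) (hS : SC θ) (D : Fin r → Finset ℝ) (F : Fin r → ℝ → ℝ)
    (S : ∀ j, Step (D j) (F j)) (hF : ∀ j x, ∃ a b : ℚ, F j x = a + b * ε) (y : Fin r → ℝ) :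
    Littlewood α (∑' k : ℕ, (∑ j, F j (y j + k * θ j)) * ε⁻¹ ^ k) := by
  classical
  have hr0 := hb.rpos
  have hr1 := hb.rlt
  have hm1 := hb.mul
  have hadd := hb.add
  have hfin : (⋃ j, Set.range (F j)).Finite := Set.finite_iUnion fun j => Step.finite_range (S j)
  obtain ⟨m, hm, hT⟩ := common_den ε hfin.toFinset (by
    intro x hx
    rw [Set.Finite.mem_toFinset, Set.mem_iUnion] at hx
    obtain ⟨j, z, rfl⟩ := hx
    exact hF j z)
  have hT' : ∀ x : ℝ, ∃ a b : ℤ, x ∈ hfin.toFinset → (m : ℝ) * x = a + b * ε := by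
    intro x
    by_cases hx : x ∈ hfin.toFinset
    · obtain ⟨a, b, h⟩ := hT x hx
      exact ⟨a, b, fun _ => h⟩
    · exact ⟨0, 0, fun h => absurd h hx⟩
  choose fa fb hfab using hT'
  have hmem : ∀ j z, F j z ∈ hfin.toFinset := by
    intro j z
    rw [Set.Finite.mem_toFinset, Set.mem_iUnion]
    exact ⟨j, z, rfl⟩
  set A : Fin r → ℝ → ℤ := fun j x => fa (F j x) with hA
  set Bf : Fin r → ℝ → ℤ := fun j x => fb (F j x) with hBf
  have hAS : ∀ j, Step (D j) (A j) := fun j => Step.comp (S j) fa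
  have hBS : ∀ j, Step (D j) (Bf j) := fun j => Step.comp (S j) fb
  have hval : ∀ j x, (m : ℝ) * F j x = A j x + Bf j x * ε := fun j x => hfab _ (hmem j x)
  set D' : Fin r → Finset ℝ := fun j => D j ∪ (D j).image (fun d => d - θ j) with hD'
  set G : Fin r → ℝ → ℤ := fun j x => A j x + Bf j (x + θ j) with hG
  have hGS : ∀ j, Step (D' j) (G j) := fun j =>
    Step.map2 (hAS j) (Step.shift (hBS j) (θ j)) (fun u v => u + v)
  set u : ℕ → ℤ := fun k => ∑ j, A j (y j + k * θ j) with hu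
  set v : ℕ → ℤ := fun k => ∑ j, Bf j (y j + k * θ j) with hv
  set e : ℕ → ℤ := fun k => u k + v (k + 1) + (if k = 0 then t * v 0 else if k = 1 then - v 0 else 0)
    with he
  obtain ⟨a, b, hab⟩ := hα
  apply lit_scale m hm
  refine int_case hb α _ a b hab θ hθ hS D' G hGS y e ?_ ?_
  · intro k hk
    rw [he]
    simp only [show k ≠ 0 by omega, show k ≠ 1 by omega, if_false, add_zero, hu, hv, hG]
    rw [← Finset.sum_add_distrib]
    refine Finset.sum_congr rfl fun j _ => ?_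
    congr 2
    push_cast
    ring
  · obtain ⟨BA, hBA0, hBA⟩ := Step.bounded hAS
    obtain ⟨BB, hBB0, hBB⟩ := Step.bounded hBS
    have hub : ∀ k, |(u k : ℝ)| ≤ r * BA := by
      intro k
      rw [hu]
      push_cast
      calc |∑ j, (A j (y j + k * θ j) : ℝ)| ≤ ∑ j, |(A j (y j + k * θ j) : ℝ)| :=
            Finset.abs_sum_le_sum_abs _ _
        _ ≤ ∑ _j : Fin r, BA := Finset.sum_le_sum fun j _ => hBA j _
        _ = r * BA := by rw [Finset.sum_const, Finset.card_univ, Fintype.card_fin, nsmul_eq_mul]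
    have hvb : ∀ k, |(v k : ℝ)| ≤ r * BB := by
      intro k
      rw [hv]
      push_cast
      calc |∑ j, (Bf j (y j + k * θ j) : ℝ)| ≤ ∑ j, |(Bf j (y j + k * θ j) : ℝ)| :=
            Finset.abs_sum_le_sum_abs _ _
        _ ≤ ∑ _j : Fin r, BB := Finset.sum_le_sum fun j _ => hBB j _
        _ = r * BB := by rw [Finset.sum_const, Finset.card_univ, Fintype.card_fin, nsmul_eq_mul]
    have hgeo : Summable (fun k : ℕ => ε⁻¹ ^ k) := summable_geometric_of_lt_one hr0.le hr1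
    have hsu : Summable (fun k : ℕ => (u k : ℝ) * ε⁻¹ ^ k) := by
      refine Summable.of_norm_bounded (g := fun k => (r * BA) * ε⁻¹ ^ k) (hgeo.mul_left _) ?_
      intro k
      rw [norm_mul, Real.norm_eq_abs, Real.norm_eq_abs, abs_of_nonneg (pow_nonneg hr0.le k)]
      exact mul_le_mul_of_nonneg_right (hub k) (pow_nonneg hr0.le k)
    have hsv : Summable (fun k : ℕ => (v k : ℝ) * ε⁻¹ ^ k) := by
      refine Summable.of_norm_bounded (g := fun k => (r * BB) * ε⁻¹ ^ k) (hgeo.mul_left _) ?_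
      intro k
      rw [norm_mul, Real.norm_eq_abs, Real.norm_eq_abs, abs_of_nonneg (pow_nonneg hr0.le k)]
      exact mul_le_mul_of_nonneg_right (hvb k) (pow_nonneg hr0.le k)
    obtain ⟨U0, hU0⟩ := hsu
    obtain ⟨V0, hV0⟩ := hsv
    -- the left side
    have hL : HasSum (fun k : ℕ => (m : ℝ) * ((∑ j, F j (y j + k * θ j)) * ε⁻¹ ^ k))
        (U0 + ε * V0) := by
      refine (hU0.add (hV0.mul_left ε)).congr_fun ?_
      intro k
      have h1 : (m : ℝ) * ∑ j, F j (y j + k * θ j) = u k + v k * ε := by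
        rw [hu, hv, Finset.mul_sum]
        push_cast
        rw [Finset.sum_mul, ← Finset.sum_add_distrib]
        exact Finset.sum_congr rfl fun j _ => hval j _
      rw [← mul_assoc, h1]
      ring
    rw [← tsum_mul_left, hL.tsum_eq]
    -- the right side
    have hV1 : HasSum (fun k : ℕ => (v (k + 1) : ℝ) * ε⁻¹ ^ (k + 1)) (V0 - v 0) := by
      have := (hasSum_nat_add_iff' (f := fun k : ℕ => (v k : ℝ) * ε⁻¹ ^ k) 1).2 hV0
      simpa using this
    have hH : HasSum (fun k : ℕ => ((if k = 0 then t * v 0 else if k = 1 then - v 0 else 0 : ℤ) : ℝ)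
        * ε⁻¹ ^ k) (t * v 0 - v 0 * ε⁻¹) := by
      have this : HasSum (fun k : ℕ =>
        ((if k = 0 then t * v 0 else if k = 1 then - v 0 else 0 : ℤ) : ℝ) * ε⁻¹ ^ k)
        (∑ k ∈ Finset.range 2,
          ((if k = 0 then t * v 0 else if k = 1 then - v 0 else 0 : ℤ) : ℝ) * ε⁻¹ ^ k) := by
        apply hasSum_sum_of_ne_finset_zero
        intro k hk
        rw [Finset.mem_range] at hk
        simp [show k ≠ 0 by omega, show k ≠ 1 by omega]
      rw [Finset.sum_range_succ, Finset.sum_range_one] at this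
      convert this using 1
      push_cast
      simp
      ring
    have hR := (hU0.add (hV1.mul_left ε)).add hH
    have hR' : HasSum (fun k : ℕ => (e k : ℝ) * ε⁻¹ ^ k) (U0 + ε * V0) := by
      have e1 : U0 + ε * (V0 - v 0) + (t * v 0 - v 0 * ε⁻¹) = U0 + ε * V0 := by
        rw [← hadd]; ring
      rw [e1] at hR
      refine hR.congr_fun ?_
      intro k
      rw [he]
      push_cast
      rw [pow_succ]
      linear_combination -(v (k + 1) : ℝ) * ε⁻¹ ^ k * hm1
    exact hR'.tsum_eq.symm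

end base

end Pool.Agent.T6.H43.LS
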