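import Pool.Agent.T6.H43.LS.Crit
import Pool.Agent.H389R2.LC.Rep

set_option autoImplicit false

/-!
Windows on which the digits are sums of `r` periodic sequences with short periods: a quantitative version,
with a power saving.
-/

namespace Pool.Agent.T6.H43.LS

open Pool.H389R2.LC

section base
variable {t : ℤ} {ε : ℝ} (hb : Base t ε)
include hb

/-- a single window -/
theorem sum_block (α β : ℝ) (A0 B0 : ℤ) (c : ℕ) (hc : 0 < c) (hα : (c : ℝ) * α = A0 + B0 * ε)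
    (r : ℕ) (d : Fin r → ℕ → ℤ) (B : ℝ) (hd : ∀ i k, |(d i k : ℝ)| ≤ B)
    (e : ℕ → ℤ) (he : ∀ k, |(e k : ℝ)| ≤ B)
    (hβ : β = ∑' k : ℕ, (e k : ℝ) * ε⁻¹ ^ k) :
    ∃ C : ℝ, 1 ≤ C ∧ ∀ (s R : ℕ) (ℓ : Fin r → ℕ), (∀ i, 0 < ℓ i) →
      3 * (∑ i, ℓ i) + (8 * r + 10) ≤ 2 * R →
      (∀ k, s ≤ k → k < s + R → e k = ∑ i, d i k) →
      (∀ i k, s ≤ k → k + ℓ i < s + R → d i (k + ℓ i) = d i k) →
      ∃ q : ℕ, 0 < q ∧ (q : ℝ) ≤ C * ε ^ (s + R / 2 + ∑ i, ℓ i) ∧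
        (L α β q) ^ 4 ≤ C * ε ^ (3 * ∑ i, ℓ i) * ε⁻¹ ^ (2 * R) := by
  have hε := hb.pos
  have hr0 := hb.rpos
  have hr1 := hb.rlt
  have hm1 := hb.mul
  have h2ε := hb.two_lt
  have hB0 : 0 ≤ B := le_trans (abs_nonneg _) (he 0)
  have hcr : (0 : ℝ) < c := by exact_mod_cast hc
  have h1r : 0 < 1 - ε⁻¹ := by linarith
  set B' : ℝ := (r + 1) * B with hB'
  have hBB' : B ≤ B' := by
    rw [hB']; nlinarith [Nat.cast_nonneg (α := ℝ) r]
  have hB'0 : 0 ≤ B' := hB0.trans hBB'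
  set C1 : ℝ := c ^ 2 * |(B0 : ℝ)| * ε * 8 * (4 * B' * (1 - ε⁻¹)⁻¹ + |β|) with hC1
  have hC1nn : 0 ≤ C1 := by positivity
  set C2 : ℝ := (16 * ε ^ 4) ^ r with hC2
  have hC2pos : 0 < C2 := by positivity
  refine ⟨C1 ^ 4 * C2 ^ 3 * ε ^ 6 + c * 2 * C2 * ε + 1, by
    have h1 : 0 ≤ C1 ^ 4 * C2 ^ 3 * ε ^ 6 := by positivity
    have h2 : 0 ≤ c * 2 * C2 * ε := by positivity
    linarith, ?_⟩
  intro s R ℓ hℓ hR hes hper
  have hex : ∀ i, ∃ D : ℤ → ℤ, (∀ k, |(D k : ℝ)| ≤ B) ∧ (∀ k, D (k + ℓ i) = D k) ∧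
      ∀ k : ℕ, s ≤ k → k < s + R → D k = d i k := by
    intro i
    obtain ⟨D, h1, h2, h3⟩ := per_ext (d i) B (hd i) s (ℓ i) R (hℓ i) 1 (Or.inl rfl)
      (by intro k hk1 hk2; rw [one_mul]; exact hper i k hk1 hk2)
    exact ⟨D, h1, by intro k; rw [h2, one_mul], h3⟩
  choose D hDB hDper hDd using hex
  obtain ⟨m, hm0, hM2, hMg⟩ := torsion_sum hb D B hDB ℓ hℓ hDper
  set G : ℤ → ℤ := fun k => ∑ i, D i k with hG
  set Lℓ : ℕ := ∑ i, ℓ i with hLℓ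
  set p : ℕ := s + R / 2 with hp
  set ρ : ℕ := R / 2 - 1 with hρ
  obtain ⟨P, hP⟩ := hMg p
  obtain ⟨Q, hQ⟩ := hMg (p + 1)
  obtain ⟨a, b, hab, ha, hb', hdvd⟩ := pigeon m hm0 P Q
  obtain ⟨z, hz⟩ := hdvd
  set A : ℕ := Nat.sqrt m with hA
  have hMr : (0 : ℝ) < m := by exact_mod_cast hm0
  have hA1 : 1 ≤ A := by
    rw [hA]; exact Nat.sqrt_pos.2 hm0
  have hint : (a : ℝ) * gg ε G p + b * gg ε G (p + 1) = z := by
    have h1 : (m : ℝ) * ((a : ℝ) * gg ε G p + b * gg ε G (p + 1)) = m * z := by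
      calc (m : ℝ) * ((a : ℝ) * gg ε G p + b * gg ε G (p + 1))
          = a * (m * gg ε G p) + b * (m * gg ε G (p + 1)) := by ring
        _ = a * P + b * Q := by rw [hP, hQ]
        _ = ((a * P + b * Q : ℤ) : ℝ) := by push_cast; ring
        _ = (((m : ℤ) * z : ℤ) : ℝ) := by rw [hz]
        _ = m * z := by push_cast; ring
    exact mul_left_cancel₀ hMr.ne' h1
  have hA2 : (A : ℝ) ^ 2 ≤ m := by
    exact_mod_cast Nat.sqrt_le' m
  have hA4 : (A : ℝ) ^ 4 ≤ C2 * ε ^ Lℓ := by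
    calc (A : ℝ) ^ 4 = ((A : ℝ) ^ 2) ^ 2 := by ring
      _ ≤ (m : ℝ) ^ 2 := pow_le_pow_left₀ (by positivity) hA2 2
      _ ≤ _ := hM2
  have haA : |(a : ℝ)| ≤ A := by
    have : ((|a| : ℤ) : ℝ) ≤ ((A : ℤ) : ℝ) := by exact_mod_cast ha
    simpa using this
  have hbA : |(b : ℝ)| ≤ A := by
    have : ((|b| : ℤ) : ℝ) ≤ ((A : ℤ) : ℝ) := by exact_mod_cast hb'
    simpa using this
  have hC2le : C2 ≤ ε ^ (8 * r) := by
    have h4 : (16 : ℝ) ≤ ε ^ 4 := by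
      have : (2 : ℝ) ^ 4 < ε ^ 4 := pow_lt_pow_left₀ h2ε (by norm_num) (by norm_num)
      linarith
    have h5 : 16 * ε ^ 4 ≤ ε ^ 8 := by
      have h6 : 0 < ε ^ 4 := by positivity
      calc 16 * ε ^ 4 ≤ ε ^ 4 * ε ^ 4 := mul_le_mul_of_nonneg_right h4 h6.le
        _ = ε ^ 8 := by ring
    calc C2 ≤ (ε ^ 8) ^ r := pow_le_pow_left₀ (by positivity) h5 r
      _ = ε ^ (8 * r) := by rw [← pow_mul]
  have hne : a * U t p + b * U t (p + 1) ≠ 0 := by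
    intro h0
    have hdiv : U t (p + 1) ∣ a * U t p := ⟨-b, by linarith⟩
    have hdiv2 : U t (p + 1) ∣ a := (U_coprime t p).symm.dvd_of_dvd_mul_right hdiv
    have hUp : ε ^ p ≤ (U t (p + 1) : ℝ) := hb.U_lower p
    have hεp : 0 < ε ^ p := pow_pos hε p
    have hUpos : (0 : ℤ) < U t (p + 1) := by
      have : (0 : ℝ) < U t (p + 1) := by linarith
      exact_mod_cast this
    by_cases ha0 : a = 0
    · rw [ha0] at h0
      have : b = 0 := by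
        rcases mul_eq_zero.mp (by linarith : b * U t (p + 1) = 0) with h | h
        · exact h
        · omega
      rcases hab with h | h
      · exact h ha0
      · exact h this
    · have h1 : U t (p + 1) ≤ |a| := Int.le_of_dvd (abs_pos.mpr ha0) ((dvd_abs _ _).mpr hdiv2)
      have h2 : (U t (p + 1) : ℝ) ≤ A := by
        have : (U t (p + 1) : ℝ) ≤ ((|a| : ℤ) : ℝ) := by exact_mod_cast h1
        have h3 : ((|a| : ℤ) : ℝ) ≤ A := by push_cast; exact haA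
        linarith
      have h3 : (ε ^ p) ^ 4 ≤ C2 * ε ^ Lℓ := by
        calc (ε ^ p) ^ 4 ≤ (A : ℝ) ^ 4 := pow_le_pow_left₀ hεp.le (by linarith) 4
          _ ≤ _ := hA4
      have h5 : C2 * ε ^ Lℓ < ε ^ (8 * r + 1 + Lℓ) := by
        calc C2 * ε ^ Lℓ ≤ ε ^ (8 * r) * ε ^ Lℓ :=
              mul_le_mul_of_nonneg_right hC2le (by positivity)
          _ = ε ^ (8 * r + Lℓ) := by rw [pow_add]
          _ < ε ^ (8 * r + 1 + Lℓ) := pow_lt_pow_right₀ hb.h1 (by omega)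
      have h7 : ε ^ (8 * r + 1 + Lℓ) ≤ (ε ^ p) ^ 4 := by
        rw [← pow_mul]
        exact pow_le_pow_right₀ hb.h1.le (by omega)
      linarith
  -- closeness
  set E : ℝ := 4 * B' * (1 - ε⁻¹)⁻¹ * ε⁻¹ ^ ρ with hE
  have hE0 : 0 ≤ E := by positivity
  have hloc : ∀ k : ℤ, (s : ℤ) ≤ k → k < s + R → ext e k = G k := by
    intro k h1 h2
    obtain ⟨n, rfl⟩ : ∃ n : ℕ, (n : ℤ) = k := ⟨k.toNat, by omega⟩
    rw [H389R2.LC.ext_nat, hes n (by omega) (by omega), hG]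
    exact Finset.sum_congr rfl fun i _ => (hDd i n (by omega) (by omega)).symm
  have hGB : ∀ k, |(G k : ℝ)| ≤ B' := by
    intro k
    rw [hG]
    push_cast
    calc |∑ i, (D i k : ℝ)| ≤ ∑ i, |(D i k : ℝ)| := Finset.abs_sum_le_sum_abs _ _
      _ ≤ ∑ _i : Fin r, B := Finset.sum_le_sum fun i _ => hDB i k
      _ = r * B := by rw [Finset.sum_const, Finset.card_univ, Fintype.card_fin, nsmul_eq_mul]
      _ ≤ B' := by rw [hB']; linarith
  have heB : ∀ k, |(ext e k : ℝ)| ≤ B' := fun k => (ext_bdd e B he k).trans hBB'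
  have hc1 : |gg ε (ext e) p - gg ε G p| ≤ E := by
    apply gg_close hb (ext e) G B' heB hGB
    intro k h1 h2
    exact hloc k (by omega) (by omega)
  have hc2 : |gg ε (ext e) (p + 1) - gg ε G (p + 1)| ≤ E := by
    apply gg_close hb (ext e) G B' heB hGB
    intro k h1 h2
    exact hloc k (by omega) (by omega)
  have hκ : |(a : ℝ) * gg ε (ext e) p + b * gg ε (ext e) (p + 1) - z| ≤ (2 * A) * E := by
    have e1 : (a : ℝ) * gg ε (ext e) p + b * gg ε (ext e) (p + 1) - z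
        = a * (gg ε (ext e) p - gg ε G p) + b * (gg ε (ext e) (p + 1) - gg ε G (p + 1)) := by
      rw [← hint]; ring
    rw [e1]
    calc |(a : ℝ) * (gg ε (ext e) p - gg ε G p) + b * (gg ε (ext e) (p + 1) - gg ε G (p + 1))|
        ≤ |(a : ℝ)| * |gg ε (ext e) p - gg ε G p| + |(b : ℝ)| * |gg ε (ext e) (p + 1) - gg ε G (p + 1)| := by
          rw [← abs_mul, ← abs_mul]; exact abs_add_le _ _
      _ ≤ A * E + A * E := by
          apply add_le_add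
          · exact mul_le_mul haA hc1 (abs_nonneg _) (by positivity)
          · exact mul_le_mul hbA hc2 (abs_nonneg _) (by positivity)
      _ = (2 * A) * E := by ring
  obtain ⟨q, hq0, hqs, hqL⟩ := key hb α β A0 B0 c hc hα e B he hβ p a b hne (2 * A)
    (by linarith) _ z hκ
  have hA1r : (1 : ℝ) ≤ A := by exact_mod_cast hA1
  have hrp : ε⁻¹ ^ p ≤ ε⁻¹ ^ ρ := pow_le_pow_of_le_one hr0.le hr1.le (by omega)
  have hL1 : L α β q ≤ C1 * (A : ℝ) ^ 3 * ε⁻¹ ^ ρ := by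
    calc L α β q ≤ c ^ 2 * |(B0 : ℝ)| * ε * (2 * (A : ℝ)) ^ 2 * ((2 * A) * E + (2 * A) * ε⁻¹ ^ p * |β|) := hqL
      _ ≤ c ^ 2 * |(B0 : ℝ)| * ε * (2 * (A : ℝ)) ^ 2 * ((2 * A) * E + (2 * A) * ε⁻¹ ^ ρ * |β|) := by
          apply mul_le_mul_of_nonneg_left _ (by positivity)
          have h1 : (2 * (A : ℝ)) * ε⁻¹ ^ p * |β| ≤ (2 * A) * ε⁻¹ ^ ρ * |β| := by
            apply mul_le_mul_of_nonneg_right _ (abs_nonneg _)
            exact mul_le_mul_of_nonneg_left hrp (by positivity)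
          linarith
      _ = C1 * (A : ℝ) ^ 3 * ε⁻¹ ^ ρ := by rw [hE, hC1]; ring
  have hL0 := L_nonneg α β q
  have hr4 : (ε⁻¹ ^ ρ) ^ 4 ≤ ε ^ 6 * ε⁻¹ ^ (2 * R) := by
    have h1 : ε⁻¹ ^ (4 * ρ + 6) ≤ ε⁻¹ ^ (2 * R) :=
      pow_le_pow_of_le_one hr0.le hr1.le (by omega)
    have h2 : ε ^ 6 * ε⁻¹ ^ (4 * ρ + 6) = (ε⁻¹ ^ ρ) ^ 4 := by
      calc ε ^ 6 * ε⁻¹ ^ (4 * ρ + 6) = (ε * ε⁻¹) ^ 6 * (ε⁻¹ ^ ρ) ^ 4 := by ring
        _ = _ := by rw [hm1, one_pow, one_mul]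
    rw [← h2]
    exact mul_le_mul_of_nonneg_left h1 (by positivity)
  refine ⟨q, hq0, ?_, ?_⟩
  · have h1 : (A : ℝ) ≤ C2 * ε ^ Lℓ := by
      calc (A : ℝ) = (A : ℝ) ^ 1 := (pow_one _).symm
        _ ≤ (A : ℝ) ^ 4 := pow_le_pow_right₀ hA1r (by norm_num)
        _ ≤ _ := hA4
    calc (q : ℝ) ≤ c * (2 * A) * ε ^ (p + 1) := hqs
      _ ≤ c * (2 * (C2 * ε ^ Lℓ)) * ε ^ (p + 1) := by
          apply mul_le_mul_of_nonneg_right _ (by positivity)
          apply mul_le_mul_of_nonneg_left _ hcr.le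
          linarith
      _ = (c * 2 * C2 * ε) * ε ^ (p + Lℓ) := by rw [pow_add, pow_add]; ring
      _ ≤ _ := by
          apply mul_le_mul_of_nonneg_right _ (by positivity)
          have h2 : 0 ≤ C1 ^ 4 * C2 ^ 3 * ε ^ 6 := by positivity
          linarith
  · calc (L α β q) ^ 4 ≤ (C1 * (A : ℝ) ^ 3 * ε⁻¹ ^ ρ) ^ 4 := pow_le_pow_left₀ hL0 hL1 4
      _ = C1 ^ 4 * ((A : ℝ) ^ 4) ^ 3 * (ε⁻¹ ^ ρ) ^ 4 := by ring
      _ ≤ C1 ^ 4 * (C2 * ε ^ Lℓ) ^ 3 * (ε ^ 6 * ε⁻¹ ^ (2 * R)) := by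
          apply mul_le_mul _ hr4 (by positivity) (by positivity)
          apply mul_le_mul_of_nonneg_left _ (by positivity)
          exact pow_le_pow_left₀ (by positivity) hA4 3
      _ = (C1 ^ 4 * C2 ^ 3 * ε ^ 6) * ε ^ (3 * Lℓ) * ε⁻¹ ^ (2 * R) := by
          have e3 : ε ^ (3 * Lℓ) = (ε ^ Lℓ) ^ 3 := by rw [← pow_mul, mul_comm]
          rw [e3]; ring
      _ ≤ _ := by
          apply mul_le_mul_of_nonneg_right _ (by positivity)
          apply mul_le_mul_of_nonneg_right _ (by positivity)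
          have h2 : 0 ≤ c * 2 * C2 * ε := by positivity
          linarith

/-- **Power saving** from windows `[s, s + n)` with `s ≤ (τ + δ) n` and periods `≤ δ n`. -/
theorem sum_rate (α β : ℝ) (A0 B0 : ℤ) (c : ℕ) (hc : 0 < c) (hα : (c : ℝ) * α = A0 + B0 * ε)
    (r : ℕ) (d : Fin r → ℕ → ℤ) (B : ℝ) (hd : ∀ i k, |(d i k : ℝ)| ≤ B)
    (e : ℕ → ℤ) (he : ∀ k, |(e k : ℝ)| ≤ B)
    (hβ : β = ∑' k : ℕ, (e k : ℝ) * ε⁻¹ ^ k) (τ : ℝ) (hτ : 0 ≤ τ)
    (h : ∀ δ : ℝ, 0 < δ → ∀ N : ℕ, ∃ (s n : ℕ) (ℓ : Fin r → ℕ), N ≤ n ∧ (s : ℝ) ≤ (τ + δ) * n ∧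
      (∀ i, 0 < ℓ i) ∧ ((∑ i, ℓ i : ℕ) : ℝ) ≤ δ * n ∧
      (∀ k, s ≤ k → k < s + n → e k = ∑ i, d i k) ∧
      (∀ i k, s ≤ k → k + ℓ i < s + n → d i (k + ℓ i) = d i k))
    (η : ℝ) (hη0 : 0 < η) (hη : η * (2 * τ + 1) < 1) :
    ∀ N : ℕ, ∃ q : ℕ, N ≤ q ∧ 0 < q ∧ (q : ℝ) ^ η * L α β q < 1 := by
  obtain ⟨C, hC1, hC⟩ := sum_block hb α β A0 B0 c hc hα r d B hd e he hβ
  have hε := hb.pos
  have hr0 := hb.rpos
  have hC0 : 0 < C := by linarith
  apply exists_large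
  · intro q _ h0
    rw [h0, mul_zero]; exact one_pos
  intro κ hκ
  set g : ℝ := 1 - η * (2 * τ + 1) with hg
  have hg0 : 0 < g := by rw [hg]; linarith
  have hη1 : η < 1 := by nlinarith
  have hg1 : g < 1 := by rw [hg]; nlinarith [mul_nonneg hη0.le hτ]
  set δ : ℝ := g / 11 with hδ
  have hδ0 : 0 < δ := by positivity
  have hδ1 : δ < 1 / 11 := by rw [hδ]; linarith
  -- choose the size of the window
  have hx1 : ε⁻¹ ^ g < 1 := Real.rpow_lt_one hr0.le hb.rlt hg0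
  have hx0 : 0 < ε⁻¹ ^ g := Real.rpow_pos_of_pos hr0 _
  obtain ⟨K0, hK0⟩ := exists_pow_small hx0 hx1 (C ^ (1 + 4 * η)) (min (κ ^ 4) 1) (by positivity)
  obtain ⟨s, n, ℓ, hn, hs, hℓ, hLℓ, hes, hper⟩ := h δ hδ0 (K0 + (8 * r + 10))
  have hnK : ((K0 : ℝ)) ≤ n := by
    have : K0 ≤ n := by omega
    exact_mod_cast this
  have hn8 : ((8 * r + 10 : ℕ) : ℝ) ≤ n := by
    have : 8 * r + 10 ≤ n := by omega
    exact_mod_cast this
  have hn0 : (0 : ℝ) ≤ n := Nat.cast_nonneg n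
  have hnpos : (0 : ℝ) < n := by
    have : (0 : ℝ) < ((8 * r + 10 : ℕ) : ℝ) := by positivity
    linarith
  set Lℓ : ℕ := ∑ i, ℓ i with hLℓdef
  have hcond : 3 * Lℓ + (8 * r + 10) ≤ 2 * n := by
    have h1 : ((3 * Lℓ + (8 * r + 10) : ℕ) : ℝ) ≤ ((2 * n : ℕ) : ℝ) := by
      rw [Nat.cast_add, Nat.cast_mul, Nat.cast_mul]
      have h2 : δ * n ≤ 1 / 11 * n := mul_le_mul_of_nonneg_right hδ1.le hn0
      push_cast at hn8 hLℓ ⊢
      linarith
    exact_mod_cast h1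
  obtain ⟨q, hq0, hqs, hqL⟩ := hC s n ℓ hℓ hcond hes hper
  have hq0r : (0 : ℝ) < q := by exact_mod_cast hq0
  have hL0 := L_nonneg α β q
  have hqs' : (q : ℝ) ≤ C * ε ^ ((τ + 1 / 2 + 2 * δ) * n) := by
    refine hqs.trans (mul_le_mul_of_nonneg_left ?_ hC0.le)
    rw [← Real.rpow_natCast]
    apply Real.rpow_le_rpow_of_exponent_le hb.h1.le
    rw [Nat.cast_add, Nat.cast_add]
    have h2 : ((n / 2 : ℕ) : ℝ) ≤ n / 2 := by
      have := Nat.cast_div_le (α := ℝ) (m := n) (n := 2)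
      simpa using this
    have e1 : (τ + 1 / 2 + 2 * δ) * n = (τ + δ) * n + n / 2 + δ * n := by ring
    rw [e1]
    linarith
  have hL4 : (L α β q) ^ 4 ≤ C * ε ^ (-((2 - 3 * δ) * n)) := by
    calc (L α β q) ^ 4 ≤ C * ε ^ (3 * Lℓ) * ε⁻¹ ^ (2 * n) := hqL
      _ = C * (ε ^ (3 * Lℓ) * ε⁻¹ ^ (2 * n)) := by ring
      _ ≤ C * ε ^ (-((2 - 3 * δ) * n)) := by
          apply mul_le_mul_of_nonneg_left _ hC0.le
          rw [← Real.rpow_natCast, ← Real.rpow_natCast, Real.inv_rpow hε.le, ← Real.rpow_neg hε.le,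
            ← Real.rpow_add hε]
          apply Real.rpow_le_rpow_of_exponent_le hb.h1.le
          rw [Nat.cast_mul, Nat.cast_mul]
          have e1 : -((2 - 3 * δ) * n) = 3 * (δ * n) - 2 * n := by ring
          rw [e1]
          push_cast at hLℓ ⊢
          linarith
  have hdecay : C ^ (1 + 4 * η) * ε ^ (-(g * n)) < min (κ ^ 4) 1 := by
    have h5 : ε ^ (-(g * n)) ≤ (ε⁻¹ ^ g) ^ K0 := by
      rw [← Real.rpow_natCast, ← Real.rpow_mul hr0.le, Real.inv_rpow hε.le, ← Real.rpow_neg hε.le]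
      apply Real.rpow_le_rpow_of_exponent_le hb.h1.le
      have : g * K0 ≤ g * n := mul_le_mul_of_nonneg_left hnK hg0.le
      linarith
    calc C ^ (1 + 4 * η) * ε ^ (-(g * n)) ≤ C ^ (1 + 4 * η) * (ε⁻¹ ^ g) ^ K0 :=
          mul_le_mul_of_nonneg_left h5 (Real.rpow_pos_of_pos hC0 _).le
      _ < _ := hK0
  refine ⟨q, hq0, ?_, ?_⟩
  · have h6 : (L α β q) ^ 4 < κ ^ 4 := by
      calc (L α β q) ^ 4 ≤ C * ε ^ (-((2 - 3 * δ) * n)) := hL4
        _ ≤ C ^ (1 + 4 * η) * ε ^ (-(g * n)) := by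
            apply mul_le_mul _ _ (Real.rpow_pos_of_pos hε _).le (Real.rpow_pos_of_pos hC0 _).le
            · calc C = C ^ (1 : ℝ) := (Real.rpow_one _).symm
                _ ≤ C ^ (1 + 4 * η) := Real.rpow_le_rpow_of_exponent_le hC1 (by linarith)
            · apply Real.rpow_le_rpow_of_exponent_le hb.h1.le
              have e1 : g * n ≤ (2 - 3 * δ) * n := by
                apply mul_le_mul_of_nonneg_right _ hn0
                linarith
              linarith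
        _ < min (κ ^ 4) 1 := hdecay
        _ ≤ κ ^ 4 := min_le_left _ _
    exact lt_of_pow_lt_pow_left₀ 4 hκ.le h6
  · have h7 : ((q : ℝ) ^ η * L α β q) ^ 4 < 1 ^ 4 := by
      rw [mul_pow, one_pow]
      have h8 : ((q : ℝ) ^ η) ^ 4 ≤ C ^ (4 * η) * ε ^ ((τ + 1 / 2 + 2 * δ) * n * (4 * η)) := by
        have h9 : ((q : ℝ) ^ η) ^ 4 = (q : ℝ) ^ (4 * η) := by
          rw [← Real.rpow_natCast, ← Real.rpow_mul hq0r.le]
          congr 1
          push_cast; ring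
        rw [h9]
        calc (q : ℝ) ^ (4 * η) ≤ (C * ε ^ ((τ + 1 / 2 + 2 * δ) * n)) ^ (4 * η) :=
              Real.rpow_le_rpow hq0r.le hqs' (by positivity)
          _ = C ^ (4 * η) * (ε ^ ((τ + 1 / 2 + 2 * δ) * n)) ^ (4 * η) :=
              Real.mul_rpow hC0.le (Real.rpow_pos_of_pos hε _).le
          _ = _ := by rw [← Real.rpow_mul hε.le]
      calc ((q : ℝ) ^ η) ^ 4 * (L α β q) ^ 4
          ≤ (C ^ (4 * η) * ε ^ ((τ + 1 / 2 + 2 * δ) * n * (4 * η)))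
              * (C * ε ^ (-((2 - 3 * δ) * n))) :=
            mul_le_mul h8 hL4 (by positivity) (mul_pos (Real.rpow_pos_of_pos hC0 _)
              (Real.rpow_pos_of_pos hε _)).le
        _ = C ^ (1 + 4 * η) * ε ^ ((τ + 1 / 2 + 2 * δ) * n * (4 * η) + -((2 - 3 * δ) * n)) := by
            rw [Real.rpow_add hC0, Real.rpow_one, Real.rpow_add hε]
            ring
        _ ≤ C ^ (1 + 4 * η) * ε ^ (-(g * n)) := by
            apply mul_le_mul_of_nonneg_left _ (Real.rpow_pos_of_pos hC0 _).le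
            apply Real.rpow_le_rpow_of_exponent_le hb.h1.le
            have e1 : (τ + 1 / 2 + 2 * δ) * n * (4 * η) + -((2 - 3 * δ) * n)
                = (2 * (η * (2 * τ + 1)) + 8 * δ * η - 2 + 3 * δ) * n := by ring
            rw [e1]
            have e2 : 2 * (η * (2 * τ + 1)) + 8 * δ * η - 2 + 3 * δ ≤ -g := by
              have h9 : 8 * δ * η ≤ 8 * δ * 1 := mul_le_mul_of_nonneg_left hη1.le (by linarith)
              have h10 : η * (2 * τ + 1) = 1 - g := by rw [hg]; ring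
              rw [h10]
              have h11 : 11 * δ = g := by rw [hδ]; ring
              linarith
            calc (2 * (η * (2 * τ + 1)) + 8 * δ * η - 2 + 3 * δ) * n ≤ (-g) * n :=
                  mul_le_mul_of_nonneg_right e2 hn0
              _ = -(g * n) := by ring
        _ < min (κ ^ 4) 1 := hdecay
        _ ≤ 1 := min_le_right _ _
    exact lt_of_pow_lt_pow_left₀ 4 zero_le_one h7

end base

end Pool.Agent.T6.H43.LS
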