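import Pool.Agent.T6.H43.LS.Field
import Pool.Agent.T6.H43.LS.Final

set_option autoImplicit false

/-!
Power savings for sums of codings of rotations: all units.
-/

open Filter Set

namespace Pool.Agent.T6.H43.LS

open Pool.Agent.R329.LitCodes (Step)
open Pool.H389R2.LC

/-- windows of the digits of even index pairs -/
lemma win_two {r : ℕ} {w : Fin r → ℕ → ℝ} {τ : ℝ} (hτ : 0 ≤ τ) (h : Win w τ) (c : ℝ) :
    Win (fun j k => w j (2 * k) + w j (2 * k + 1) * c) τ := by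
  intro δ hδ N
  set δ1 : ℝ := δ / (4 * (1 + τ + δ)) with hδ1
  have hp : 0 < 1 + τ + δ := by positivity
  have hδ10 : 0 < δ1 := by positivity
  have hδ1e : δ1 * (1 + τ + δ) = δ / 4 := by
    rw [hδ1]; field_simp
  have hδ1a : δ1 * τ ≥ 0 := by positivity
  have hδ1b : δ1 * δ ≥ 0 := by positivity
  have hδ1c : δ1 + δ1 * τ + δ1 * δ = δ / 4 := by linarith [hδ1e, (by ring :
    δ1 * (1 + τ + δ) = δ1 + δ1 * τ + δ1 * δ)]
  have hδ11 : δ1 ≤ 1 / 4 := by
    rw [hδ1, div_le_iff₀ (by positivity)]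
    linarith
  obtain ⟨M, hM⟩ := exists_nat_gt ((8 + 8 * (τ + δ)) / (δ / 2))
  rw [div_lt_iff₀ (by positivity)] at hM
  obtain ⟨s, n, ℓ, hn, hs, hℓ, hLℓ, hper⟩ := h δ1 hδ10 (4 * N + M + 12)
  set T : ℕ := ∑ i, ℓ i with hT
  have hℓT : ∀ j, ℓ j ≤ T := fun j => Finset.single_le_sum (fun _ _ => Nat.zero_le _)
    (Finset.mem_univ j)
  have hn0 : (0 : ℝ) ≤ n := Nat.cast_nonneg n
  have hT4 : 4 * T ≤ n := by
    have : (T : ℝ) ≤ 1 / 4 * n := hLℓ.trans (mul_le_mul_of_nonneg_right hδ11 hn0)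
    have h2 : ((4 * T : ℕ) : ℝ) ≤ (n : ℝ) := by push_cast; linarith
    exact_mod_cast h2
  have hnM : (M : ℝ) ≤ n := by
    have : M ≤ n := by omega
    exact_mod_cast this
  have hkey : 8 + 8 * (τ + δ) ≤ n * (δ / 2) := by
    have : (M : ℝ) * (δ / 2) ≤ n * (δ / 2) := mul_le_mul_of_nonneg_right hnM (by positivity)
    linarith
  -- lower bound for the new length
  have hn' : ((1 - δ1) * n - 3) / 2 ≤ (((n - T - 2) / 2 : ℕ) : ℝ) := by
    have h1 : n ≤ 2 * ((n - T - 2) / 2) + T + 3 := by omega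
    have h2 : (n : ℝ) ≤ 2 * (((n - T - 2) / 2 : ℕ) : ℝ) + T + 3 := by exact_mod_cast h1
    linarith
  have hs' : ((s / 2 + 1 : ℕ) : ℝ) ≤ s / 2 + 1 := by
    push_cast
    have : ((s / 2 : ℕ) : ℝ) ≤ s / 2 := by
      have := Nat.cast_div_le (α := ℝ) (m := s) (n := 2)
      simpa using this
    linarith
  refine ⟨s / 2 + 1, (n - T - 2) / 2, ℓ, by omega, ?_, hℓ, ?_, ?_⟩
  · have h1 : (τ + δ) * (((1 - δ1) * n - 3) / 2) ≤ (τ + δ) * (((n - T - 2) / 2 : ℕ) : ℝ) :=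
      mul_le_mul_of_nonneg_left hn' (by positivity)
    refine hs'.trans (le_trans ?_ h1)
    have e1 : (τ + δ) * (((1 - δ1) * n - 3) / 2)
        = ((τ + δ1) * n) / 2 + (n * (δ - (δ1 + δ1 * τ + δ1 * δ))) / 2 - 3 * (τ + δ) / 2 := by ring
    rw [e1, hδ1c]
    have e2 : (n : ℝ) * (δ - δ / 4) = n * (δ / 2) + n * (δ / 2) / 2 := by ring
    rw [e2]
    have h3 : 0 ≤ (n : ℝ) * (δ / 2) := by positivity
    linarith
  · have h1 : δ * (((1 - δ1) * n - 3) / 2) ≤ δ * (((n - T - 2) / 2 : ℕ) : ℝ) :=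
      mul_le_mul_of_nonneg_left hn' hδ.le
    refine hLℓ.trans (le_trans ?_ h1)
    have e1 : δ * (((1 - δ1) * n - 3) / 2) = n * (δ / 2) - (n * (δ1 * δ)) / 2 - 3 * δ / 2 := by ring
    rw [e1]
    have h2 : (n : ℝ) * (δ1 * δ) ≤ n * (δ / 4) :=
      mul_le_mul_of_nonneg_left (by linarith) hn0
    have h4 : δ1 * n ≤ n * (δ / 4) := by
      rw [mul_comm]
      exact mul_le_mul_of_nonneg_left (by linarith) hn0
    have e2 : (n : ℝ) * (δ / 4) = n * (δ / 2) / 2 := by ring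
    rw [e2] at h2 h4
    linarith
  · intro j k hk1 hk2
    have hj := hℓT j
    have h1 := hper j (2 * k) (by omega) (by omega)
    have h2 := hper j (2 * k + ℓ j) (by omega) (by omega)
    have h3 := hper j (2 * k + 1) (by omega) (by omega)
    have h4 := hper j (2 * k + 1 + ℓ j) (by omega) (by omega)
    simp only
    rw [show 2 * (k + ℓ j) = 2 * k + ℓ j + ℓ j by ring, h2, h1,
      show 2 * k + ℓ j + ℓ j + 1 = 2 * k + 1 + ℓ j + ℓ j by ring, h4, h3]

theorem unit_rate {r : ℕ} (w : Fin r → ℕ → ℝ) (hfin : (⋃ j, Set.range (w j)).Finite) (α ε : ℝ)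
    (h1 : 1 < ε) (hu : ∃ u v : ℚ, ε = u + v * α) (hq : ∃ t σ : ℤ, (σ = 1 ∨ σ = -1) ∧
      ε ^ 2 - t * ε + σ = 0) (hF : ∀ j k, ∃ a b : ℚ, w j k = a + b * α)
    (τ : ℝ) (hτ : 0 ≤ τ) (hwin : Win w τ) (η : ℝ) (hη0 : 0 < η) (hη : η * (2 * τ + 1) < 1) :
    Saves η α (∑' k : ℕ, (∑ j, w j k) * ε⁻¹ ^ k) := by
  obtain ⟨u, v, huv⟩ := hu
  obtain ⟨t, σ, hσ, hq⟩ := hq
  have hε0 : 0 < ε := by linarith
  have hirr := irr_unit t σ hσ ε h1 hq
  have hv : v ≠ 0 := by
    rintro rfl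
    apply hirr
    exact ⟨u, by rw [huv]; simp⟩
  have hvr : (v : ℝ) ≠ 0 := by exact_mod_cast hv
  have hα : α = ((-u / v : ℚ) : ℝ) + ((1 / v : ℚ) : ℝ) * ε := by
    rw [huv]
    push_cast
    field_simp
    ring
  have hF' : ∀ j x, ∃ a b : ℚ, w j x = a + b * ε := by
    intro j x
    obtain ⟨a, b, hab⟩ := hF j x
    refine ⟨a + b * (-u / v), b * (1 / v), ?_⟩
    rw [hab]
    conv_lhs => rw [hα]
    push_cast
    ring
  rcases hσ with rfl | rfl
  · -- norm one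
    push_cast at hq
    have ht : 3 ≤ t := by
      have h2 : (0 : ℝ) < (t - 2) * ε := by nlinarith [sq_nonneg (ε - 1), sq_pos_of_pos (by linarith : 0 < ε - 1)]
      have h3 : (0 : ℝ) < t - 2 := pos_of_mul_pos_left h2 hε0.le
      have h4 : (2 : ℝ) < t := by linarith
      have h5 : (2 : ℤ) < t := by exact_mod_cast h4
      omega
    have hb : Base t ε := ⟨ht, h1, hq⟩
    exact field_rate hb α ⟨_, _, hα⟩ w hfin hF' τ hτ hwin η hη0 hη
  · -- norm minus one
    push_cast at hq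
    have hsq : ε ^ 2 = t * ε + 1 := by linarith
    have ht : 1 ≤ t := by
      have h2 : (0 : ℝ) < t * ε := by nlinarith
      have h3 : (0 : ℝ) < t := pos_of_mul_pos_left h2 hε0.le
      have h5 : (0 : ℤ) < t := by exact_mod_cast h3
      omega
    have htr : (t : ℝ) ≠ 0 := by
      have : t ≠ 0 := by omega
      exact_mod_cast this
    have hb : Base (t ^ 2 + 2) (ε ^ 2) := by
      refine ⟨by nlinarith, by nlinarith, ?_⟩
      push_cast
      rw [hsq]
      linear_combination (t : ℝ) ^ 2 * hsq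
    have hinv : ε⁻¹ = ε - t := by
      rw [inv_eq_iff_eq_inv]
      refine eq_inv_of_mul_eq_one_left ?_
      linarith
    have hE : ε = ((-1 / t : ℚ) : ℝ) + ((1 / t : ℚ) : ℝ) * ε ^ 2 := by
      rw [hsq]
      push_cast
      field_simp
      ring
    set w' : Fin r → ℕ → ℝ := fun j k => w j (2 * k) + w j (2 * k + 1) * ε⁻¹ with hw'
    have hfin' : (⋃ j, Set.range (w' j)).Finite := by
      refine (Set.Finite.image2 (fun a b : ℝ => a + b * ε⁻¹) hfin hfin).subset ?_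
      intro z hz
      rw [Set.mem_iUnion] at hz
      obtain ⟨j, k, rfl⟩ := hz
      exact ⟨w j (2 * k), Set.mem_iUnion.2 ⟨j, _, rfl⟩, w j (2 * k + 1),
        Set.mem_iUnion.2 ⟨j, _, rfl⟩, rfl⟩
    have hGF : ∀ j x, ∃ a b : ℚ, w' j x = a + b * (ε ^ 2 : ℝ) := by
      intro j x
      obtain ⟨a, b, hab⟩ := hF' j (2 * x)
      obtain ⟨c, d, hcd⟩ := hF' j (2 * x + 1)
      refine ⟨a + d - c * t + (b + c) * (-1 / t), (b + c) * (1 / t), ?_⟩
      rw [hw']
      simp only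
      rw [hab, hcd, hinv]
      have e1 : (a : ℝ) + b * ε + (c + d * ε) * (ε - t) = (a + d - c * t) + (b + c) * ε := by
        linear_combination (d : ℝ) * hsq
      rw [e1]
      conv_lhs => rw [hE]
      push_cast
      ring
    have hα2 : ∃ a b : ℚ, α = a + b * (ε ^ 2 : ℝ) := by
      refine ⟨-u / v + 1 / v * (-1 / t), 1 / v * (1 / t), ?_⟩
      rw [hα]
      conv_lhs => rw [hE]
      push_cast
      ring
    have key := field_rate hb α hα2 w' hfin' hGF τ hτ (win_two hτ hwin ε⁻¹) η hη0 hη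
    have hr0 : 0 < ε⁻¹ := inv_pos.2 hε0
    have hr1 : ε⁻¹ < 1 := inv_lt_one_of_one_lt₀ h1
    have hB : ∀ j k, |w j k| ≤ ∑ x ∈ hfin.toFinset, |x| := by
      intro j k
      refine Finset.single_le_sum (f := fun x : ℝ => |x|) (fun _ _ => abs_nonneg _) ?_
      rw [Set.Finite.mem_toFinset, Set.mem_iUnion]
      exact ⟨j, k, rfl⟩
    set B : ℝ := ∑ x ∈ hfin.toFinset, |x| with hBdef
    have hgeo : Summable (fun k : ℕ => ε⁻¹ ^ k) := summable_geometric_of_lt_one hr0.le hr1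
    set f : ℕ → ℝ := fun k => (∑ j, w j k) * ε⁻¹ ^ k with hf
    have hsf : Summable f := by
      refine Summable.of_norm_bounded (g := fun k => (r * B) * ε⁻¹ ^ k) (hgeo.mul_left _) ?_
      intro k
      rw [hf, norm_mul, Real.norm_eq_abs, Real.norm_eq_abs, abs_of_nonneg (pow_nonneg hr0.le k)]
      apply mul_le_mul_of_nonneg_right _ (pow_nonneg hr0.le k)
      calc |∑ j, w j k| ≤ ∑ j, |w j k| := Finset.abs_sum_le_sum_abs _ _
        _ ≤ ∑ _j : Fin r, B := Finset.sum_le_sum fun j _ => hB j _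
        _ = r * B := by rw [Finset.sum_const, Finset.card_univ, Fintype.card_fin, nsmul_eq_mul]
    have he : Summable fun k => f (2 * k) := hsf.comp_injective fun a b h => by omega
    have ho : Summable fun k => f (2 * k + 1) := hsf.comp_injective fun a b h => by omega
    have hsum : ∑' k, f k = ∑' k : ℕ, (∑ j, w' j k) * (ε ^ 2)⁻¹ ^ k := by
      rw [← tsum_even_add_odd he ho, ← he.tsum_add ho]
      apply tsum_congr
      intro k
      rw [hf, hw']
      simp only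
      rw [Finset.sum_add_distrib, ← Finset.sum_mul, ← inv_pow, ← pow_mul, pow_succ]
      ring
    rw [hsum]
    exact key

/-- **Power savings for sums of rotation codings.** -/
theorem rot_rate {r : ℕ} (θ : Fin r → ℝ) (hθ : ∀ j, Irrational (θ j)) (hS : SC θ) (α ε : ℝ)
    (h1 : 1 < ε) (hu : ∃ u v : ℚ, ε = u + v * α) (hq : ∃ t σ : ℤ, (σ = 1 ∨ σ = -1) ∧
      ε ^ 2 - t * ε + σ = 0) (D : Fin r → Finset ℝ) (F : Fin r → ℝ → ℝ)
    (S : ∀ j, Step (D j) (F j)) (hF : ∀ j x, ∃ a b : ℚ, F j x = a + b * α) (y : Fin r → ℝ)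
    (η : ℝ) (hη0 : 0 < η) (hη : η * (2 * (tot D : ℝ) + 1) < 1) :
    Saves η α (∑' k : ℕ, (∑ j, F j (y j + k * θ j)) * ε⁻¹ ^ k) := by
  refine unit_rate (fun j k => F j (y j + k * θ j)) ?_ α ε h1 hu hq (fun j k => hF j _) (tot D)
    (Nat.cast_nonneg _) (win_of_SC θ hθ hS D F S y) η hη0 hη
  refine (Set.finite_iUnion fun j => Step.finite_range (S j)).subset ?_
  refine Set.iUnion_mono fun j => ?_
  rintro _ ⟨k, rfl⟩
  exact ⟨_, rfl⟩

end Pool.Agent.T6.H43.LS
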